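import Pool.Agent.Q15.PA.Stm

/-!
# Project PA, job PA-BX: `G` is a box
-/

set_option autoImplicit false

open MeasureTheory Set

namespace Pool.Agent.Q154.PA

open Pool.Agent.Q15.PA

theorem t_BX : S_BX := by
  classical
  intro d G N hcpt hcl hconn hint hae hA
  obtain ⟨A, hA⟩ := hA
  set B : Fin d → Set ℝ := fun i => (fun x : V d => x i) '' interior G with hB
  have hne : ∀ i, (B i).Nonempty := fun i => hconn.nonempty.image _
  have hopen : ∀ i, IsOpen (B i) := fun i => (isOpenMap_eval i) _ isOpen_interior
  have hpre : ∀ i, IsPreconnected (B i) := fun i =>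
    hconn.isPreconnected.image _ (continuous_apply i).continuousOn
  have hbdd : ∀ i, Bornology.IsBounded (B i) := by
    intro i
    have h1 : IsCompact ((fun x : V d => x i) '' G) := hcpt.image (continuous_apply i)
    exact h1.isBounded.subset (Set.image_mono interior_subset)
  have hbb : ∀ i, BddBelow (B i) := fun i => (hbdd i).bddBelow
  have hba : ∀ i, BddAbove (B i) := fun i => (hbdd i).bddAbove
  refine ⟨fun i => sInf (B i), fun i => sSup (B i), ?_, ?_⟩
  · intro i
    obtain ⟨t, ht⟩ := hne i
    obtain ⟨ε, hε, hball⟩ := Metric.isOpen_iff.1 (hopen i) t ht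
    have h1 : t - ε / 2 ∈ B i := hball (by
      rw [Metric.mem_ball, Real.dist_eq]
      rw [abs_lt]; constructor <;> linarith)
    have h2 : t + ε / 2 ∈ B i := hball (by
      rw [Metric.mem_ball, Real.dist_eq]
      rw [abs_lt]; constructor <;> linarith)
    have h3 := csInf_le (hbb i) h1
    have h4 := le_csSup (hba i) h2
    linarith
  · have hlt : ∀ i, sInf (B i) < sSup (B i) := by
      intro i
      obtain ⟨t, ht⟩ := hne i
      obtain ⟨ε, hε, hball⟩ := Metric.isOpen_iff.1 (hopen i) t ht
      have h1 : t - ε / 2 ∈ B i := hball (by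
        rw [Metric.mem_ball, Real.dist_eq]
        rw [abs_lt]; constructor <;> linarith)
      have h2 : t + ε / 2 ∈ B i := hball (by
        rw [Metric.mem_ball, Real.dist_eq]
        rw [abs_lt]; constructor <;> linarith)
      have h3 := csInf_le (hbb i) h1
      have h4 := le_csSup (hba i) h2
      linarith
    apply Set.Subset.antisymm
    · intro x hx
      rw [hcl] at hx
      have hsub : interior G ⊆ Set.Icc (fun i => sInf (B i)) (fun i => sSup (B i)) := by
        intro y hy
        exact ⟨fun i => csInf_le (hbb i) ⟨y, hy, rfl⟩, fun i => le_csSup (hba i) ⟨y, hy, rfl⟩⟩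
      exact closure_minimal hsub isClosed_Icc hx
    · -- the open box
      set O : Set (V d) := Set.pi univ (fun i => Set.Ioo (sInf (B i)) (sSup (B i))) with hO
      have hOopen : IsOpen O := isOpen_set_pi Set.finite_univ (fun i _ => isOpen_Ioo)
      have hOcum : ∀ x ∈ O, cum N x = 1 := by
        intro x hx
        rw [hA x]
        intro i
        have h1 : x i ∈ B i := IsConnected.Ioo_csInf_csSup_subset ⟨hne i, hpre i⟩ (hbb i) (hba i) (hx i (Set.mem_univ i))
        obtain ⟨y, hy, hyx⟩ := h1
        have h2 := (hA y).1 (hint y hy) i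
        have h3 : y i = x i := hyx
        rw [← h3]; exact h2
      have hOG : O ⊆ G := by
        intro x hx
        by_contra hxG
        have hop : IsOpen (O \ G) := hOopen.sdiff hcpt.isClosed
        have hpos : 0 < volume (O \ G) := hop.measure_pos volume ⟨x, hx, hxG⟩
        have hzero : volume (O \ G) = 0 := by
          refine measure_mono_null ?_ (ae_iff.1 hae)
          intro y hy hcon
          exact hy.2 (hcon.1 (hOcum y hy.1))
        exact hpos.ne' hzero
      have hclO : closure O = Set.Icc (fun i => sInf (B i)) (fun i => sSup (B i)) := by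
        rw [hO, closure_pi_set]
        have : (fun i => closure (Set.Ioo (sInf (B i)) (sSup (B i)))) =
            fun i => Set.Icc (sInf (B i)) (sSup (B i)) := by
          funext i
          exact closure_Ioo (hlt i).ne
        rw [this, Set.pi_univ_Icc]
      rw [← hclO]
      exact closure_minimal hOG hcpt.isClosed

end Pool.Agent.Q154.PA
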