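import Pool.Agent.Q15.PA.Stm

/-!
# Project PA, job PA-COR: the corners of the bounding box
-/

set_option autoImplicit false

namespace Pool.Agent.Q154.PA

open Pool.Agent.Q15.PA

lemma isOpen_umax {d : ℕ} (F : Finset (V d)) (v : V d) : IsOpen {l : V d | UMax F l v} := by
  classical
  by_cases hv : v ∈ F
  · have h : {l : V d | UMax F l v} = ⋂ v' ∈ F.filter (fun v' => v' ≠ v),
        {l : V d | l ⬝ᵥ v' < l ⬝ᵥ v} := by
      ext l
      simp only [Set.mem_iInter, Finset.mem_filter]
      constructor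
      · rintro h v' ⟨h1, h2⟩
        exact h.2 v' h1 h2
      · intro h
        exact ⟨hv, fun v' h1 h2 => h v' ⟨h1, h2⟩⟩
    rw [h]
    apply isOpen_biInter_finset
    intro v' _
    apply isOpen_lt
    · unfold dotProduct
      exact continuous_finsetSum _ (fun i _ => (continuous_apply i).mul continuous_const)
    · unfold dotProduct
      exact continuous_finsetSum _ (fun i _ => (continuous_apply i).mul continuous_const)
  · have h : {l : V d | UMax F l v} = ∅ := by
      rw [Set.eq_empty_iff_forall_notMem]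
      intro l hl
      exact hv hl.1
    rw [h]
    exact isOpen_empty

theorem t_COR : S_COR := by
  classical
  intro d F hU
  have hne : F.Nonempty := by
    obtain ⟨v, hv⟩ := hU (fun _ => 1) (fun _ => one_ne_zero)
    exact ⟨v, hv.1⟩
  have hlo : ∀ i, ∃ t : ℝ, (∃ v ∈ F, v i = t) ∧ ∀ v ∈ F, t ≤ v i := by
    intro i
    obtain ⟨v, hv, hm⟩ := F.exists_min_image (fun v => v i) hne
    exact ⟨v i, ⟨v, hv, rfl⟩, hm⟩
  have hhi : ∀ i, ∃ t : ℝ, (∃ v ∈ F, v i = t) ∧ ∀ v ∈ F, v i ≤ t := by
    intro i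
    obtain ⟨v, hv, hm⟩ := F.exists_max_image (fun v => v i) hne
    exact ⟨v i, ⟨v, hv, rfl⟩, hm⟩
  choose lo hlo1 hlo2 using hlo
  choose hi hhi1 hhi2 using hhi
  refine ⟨lo, hi, fun v hv => ⟨fun i => hlo2 i v hv, fun i => hhi2 i v hv⟩, fun T => ?_⟩
  -- the orthant
  set O : Set (V d) := Set.pi Set.univ (fun i => if i ∈ T then Set.Ioi (0 : ℝ) else Set.Iio 0) with hO
  have hOpre : IsPreconnected O := by
    apply isPreconnected_univ_pi
    intro i
    by_cases h : i ∈ T
    · rw [if_pos h]; exact isPreconnected_Ioi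
    · rw [if_neg h]; exact isPreconnected_Iio
  have hOne : ∀ l ∈ O, ∀ i, l i ≠ 0 := by
    intro l hl i
    have h := hl i (Set.mem_univ i)
    simp only at h
    by_cases hi : i ∈ T
    · rw [if_pos hi] at h; exact (ne_of_gt h)
    · rw [if_neg hi] at h; exact (ne_of_lt h)
  set s : V d := fun i => if i ∈ T then 1 else -1 with hs
  have hsO : ∀ K : V d, (∀ i, 0 < K i) → (fun i => s i * K i) ∈ O := by
    intro K hK i _
    by_cases hi : i ∈ T
    · simp only [hs, if_pos hi, one_mul]; exact hK i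
    · simp only [hs, if_neg hi]
      show -1 * K i < 0
      linarith [hK i]
  have hs0 : s ∈ O := by
    have := hsO (fun _ => 1) (fun _ => one_pos)
    simpa using this
  obtain ⟨v, hv⟩ := hU s (hOne s hs0)
  have hall : ∀ l ∈ O, UMax F l v := by
    intro l hl
    by_contra hcon
    obtain ⟨v', hv'⟩ := hU l (hOne l hl)
    set B : Set (V d) := ⋃ w ∈ F.filter (fun w => w ≠ v), {l : V d | UMax F l w} with hB
    have hBo : IsOpen B := isOpen_biUnion (fun w _ => isOpen_umax F w)
    have hcov : O ⊆ {l : V d | UMax F l v} ∪ B := by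
      intro l' hl'
      obtain ⟨w, hw⟩ := hU l' (hOne l' hl')
      by_cases hwv : w = v
      · left; rw [hwv] at hw; exact hw
      · right
        exact Set.mem_biUnion (Finset.mem_coe.2 (Finset.mem_filter.2 ⟨hw.1, hwv⟩)) hw
    have hvne : v' ≠ v := fun h => hcon (h ▸ hv')
    obtain ⟨l', _, hl1, hl2⟩ := hOpre _ _ (isOpen_umax F v) hBo hcov ⟨s, hs0, hv⟩
      ⟨l, hl, Set.mem_biUnion (Finset.mem_coe.2 (Finset.mem_filter.2 ⟨hv'.1, hvne⟩)) hv'⟩
    simp only [hB, Set.mem_iUnion, exists_prop, Finset.mem_filter] at hl2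
    obtain ⟨w, ⟨hwF, hwv⟩, hw⟩ := hl2
    have h1 : l' ⬝ᵥ w < l' ⬝ᵥ v := hl1.2 w hwF hwv
    have h2 : l' ⬝ᵥ v < l' ⬝ᵥ w := hw.2 v hl1.1 (Ne.symm hwv)
    linarith
  have hmax : ∀ i, ∀ v' ∈ F, s i * v' i ≤ s i * v i := by
    intro i v' hv'
    by_contra hcon
    push Not at hcon
    have hvne : v' ≠ v := by
      rintro rfl
      exact lt_irrefl _ hcon
    set δ : ℝ := s i * v' i - s i * v i with hδ
    have hδp : 0 < δ := by rw [hδ]; linarith
    set R : ℝ := ∑ j ∈ Finset.univ.erase i, s j * (v' j - v j) with hR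
    set K : ℝ := (1 + |R|) / δ with hK
    have hKp : 0 < K := div_pos (by positivity) hδp
    have h1 := (hall _ (hsO (fun j => if j = i then K else 1) (fun j => by
      by_cases hj : j = i
      · rw [if_pos hj]; exact hKp
      · rw [if_neg hj]; exact one_pos))).2 v' hv' hvne
    have h2 : (fun j => s j * (if j = i then K else 1)) ⬝ᵥ v' -
        (fun j => s j * (if j = i then K else 1)) ⬝ᵥ v = K * δ + R := by
      rw [← dotProduct_sub]
      unfold dotProduct
      rw [← Finset.add_sum_erase _ _ (Finset.mem_univ i)]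
      congr 1
      · simp only [if_pos, Pi.sub_apply, hδ]
        ring
      · apply Finset.sum_congr rfl
        intro j hj
        simp only
        rw [if_neg (Finset.ne_of_mem_erase hj), Pi.sub_apply, mul_one]
    have h3 : K * δ = 1 + |R| := by
      rw [hK]; field_simp
    have h4 := neg_abs_le R
    linarith
  have hcrn : crn lo hi T = v := by
    funext i
    unfold crn
    by_cases hiT : i ∈ T
    · rw [if_pos hiT]
      obtain ⟨w, hw, hwi⟩ := hhi1 i
      have h1 := hmax i w hw
      simp only [hs, if_pos hiT, one_mul] at h1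
      have h2 := hhi2 i v hv.1
      linarith
    · rw [if_neg hiT]
      obtain ⟨w, hw, hwi⟩ := hlo1 i
      have h1 := hmax i w hw
      simp only [hs, if_neg hiT] at h1
      have h2 := hlo2 i v hv.1
      linarith
  rw [hcrn]
  exact hv.1

end Pool.Agent.Q154.PA
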