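import Pool.Agent.Q15.PA.Stm

/-!
# Project PA, job PA-DG: `M` permutes the lines `ℝ u_i`
-/

set_option autoImplicit false

open MeasureTheory

namespace Pool.Agent.Q154.PA

open Pool.Agent.Q15.PA

/-- the evaluation as a homomorphism -/
noncomputable def evH {d : ℕ} (ξ : V d) : (V d →₀ MvPolynomial (Fin d) ℝ) →+ ℝ :=
  Finsupp.liftAddHom (fun v => (AddMonoidHom.mulRight (Real.exp (v ⬝ᵥ ξ))).comp
    (MvPolynomial.eval ξ).toAddMonoidHom)

lemma evH_eq {d : ℕ} (ξ : V d) (p : V d →₀ MvPolynomial (Fin d) ℝ) : evH ξ p = ev p ξ := rfl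

lemma evH_single {d : ℕ} (ξ v : V d) (q : MvPolynomial (Fin d) ℝ) :
    evH ξ (Finsupp.single v q) = MvPolynomial.eval ξ q * Real.exp (v ⬝ᵥ ξ) := by
  unfold evH
  rw [Finsupp.liftAddHom_apply_single]
  rfl

lemma E_pos {d : ℕ} (G : Set (V d)) (hG : IsCompact G) (hvol : volume G ≠ 0) (ξ : V d) :
    0 < E G ξ := by
  unfold E
  have : NeZero (volume.restrict G) := ⟨by
    intro h
    exact hvol (Measure.restrict_eq_zero.1 h)⟩
  apply integral_exp_pos
  apply ContinuousOn.integrableOn_compact hG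
  apply Continuous.continuousOn
  apply Real.continuous_exp.comp
  unfold dotProduct
  exact continuous_finsetSum _ (fun i _ => continuous_const.mul (continuous_apply i))

lemma dot_tr {d : ℕ} (M : Matrix (Fin d) (Fin d) ℝ) (u ξ : V d) :
    u ⬝ᵥ (M.transpose.mulVec ξ) = (M.mulVec u) ⬝ᵥ ξ := by
  rw [Matrix.dotProduct_mulVec, Matrix.vecMul_transpose]

theorem t_DG : S_DG := by
  classical
  intro hEX hFE hLI d G M S u N hA hvol hu hEq
  have hdet : IsUnit M.det := (hEX d M hA.expanding).1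
  have hMinj : Function.Injective M.mulVec := by
    intro x y hxy
    have h1 : M⁻¹.mulVec (M.mulVec x) = M⁻¹.mulVec (M.mulVec y) := by rw [hxy]
    rwa [Matrix.mulVec_mulVec, Matrix.mulVec_mulVec, Matrix.nonsing_inv_mul _ hdet,
      Matrix.one_mulVec, Matrix.one_mulVec] at h1
  have hune : ∀ i, u i ≠ 0 := fun i => hu.ne_zero i
  have hMune : ∀ i, M.mulVec (u i) ≠ 0 := by
    intro i h
    apply hune i
    apply hMinj
    rw [h, Matrix.mulVec_zero]
  set P1 : MvPolynomial (Fin d) ℝ := ∏ i, lin (M.mulVec (u i)) with hP1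
  set P2 : MvPolynomial (Fin d) ℝ := ∏ i, lin (u i) with hP2
  have hP2ne : P2 ≠ 0 := Finset.prod_ne_zero_iff.2 (fun i _ => lin_ne (hune i))
  have heP1 : ∀ ξ, MvPolynomial.eval ξ P1 = ∏ i, (M.mulVec (u i)) ⬝ᵥ ξ := by
    intro ξ
    rw [hP1, map_prod]
    exact Finset.prod_congr rfl (fun i _ => eval_lin _ _)
  have heP2 : ∀ ξ, MvPolynomial.eval ξ P2 = ∏ i, (u i) ⬝ᵥ ξ := by
    intro ξ
    rw [hP2, map_prod]
    exact Finset.prod_congr rfl (fun i _ => eval_lin _ _)
  -- `N ≠ 0`
  obtain ⟨v₀, hv₀⟩ : ∃ v₀, N v₀ ≠ 0 := by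
    by_contra hcon
    push Not at hcon
    apply hP2ne
    apply MvPolynomial.funext
    intro ξ
    have h1 := hEq ξ
    have h2 : evc N ξ = 0 := by
      unfold evc
      apply Finset.sum_eq_zero
      intro v _
      simp only
      rw [hcon v, zero_mul]
    rw [h2] at h1
    rw [heP2, map_zero]
    rcases mul_eq_zero.1 h1 with h | h
    · exact h
    · exact absurd h (E_pos G hA.compact hvol ξ).ne'
  set D : ℝ := |M.det| with hD
  have hDne : D ≠ 0 := abs_ne_zero.2 hdet.ne_zero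
  set p : V d →₀ MvPolynomial (Fin d) ℝ :=
    (∑ s ∈ S, ∑ v ∈ N.support, Finsupp.single (s + v) (MvPolynomial.C (N v) * P1)) -
      ∑ v ∈ N.support, Finsupp.single (M.mulVec v) (MvPolynomial.C (D * N v) * P2) with hp
  have hp0 : p = 0 := by
    apply hLI d p
    intro ξ
    rw [← evH_eq, hp, map_sub, map_sum, map_sum]
    simp only [map_sum, evH_single, map_mul, MvPolynomial.eval_C]
    have h1 := hFE d G M S hdet hA ξ
    have h2 := hEq ξ
    have h3 := hEq (M.transpose.mulVec ξ)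
    simp only [dot_tr] at h3
    have e1 : ∑ s ∈ S, ∑ v ∈ N.support, N v * MvPolynomial.eval ξ P1 * Real.exp ((s + v) ⬝ᵥ ξ) =
        MvPolynomial.eval ξ P1 * ((∑ s ∈ S, Real.exp (s ⬝ᵥ ξ)) * evc N ξ) := by
      unfold evc
      rw [Finsupp.sum, Finset.sum_mul_sum, Finset.mul_sum]
      apply Finset.sum_congr rfl
      intro s _
      rw [Finset.mul_sum]
      apply Finset.sum_congr rfl
      intro v _
      rw [add_dotProduct, Real.exp_add]
      ring
    have e2 : ∑ v ∈ N.support, D * N v * MvPolynomial.eval ξ P2 * Real.exp (M.mulVec v ⬝ᵥ ξ) =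
        D * MvPolynomial.eval ξ P2 * evc N (M.transpose.mulVec ξ) := by
      unfold evc
      rw [Finsupp.sum, Finset.mul_sum]
      apply Finset.sum_congr rfl
      intro v _
      rw [dot_tr]
      ring
    rw [e1, e2, ← h2, ← h3, heP1, heP2]
    have h4 : (∏ i, (M.mulVec (u i)) ⬝ᵥ ξ) * ((∑ s ∈ S, Real.exp (s ⬝ᵥ ξ)) *
        ((∏ i, u i ⬝ᵥ ξ) * E G ξ)) = (∏ i, (M.mulVec (u i)) ⬝ᵥ ξ) * (∏ i, u i ⬝ᵥ ξ) *
        ((∑ s ∈ S, Real.exp (s ⬝ᵥ ξ)) * E G ξ) := by ring
    rw [h4, h1]
    ring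
  -- the coefficient at `M v₀`
  obtain ⟨a, hab⟩ : ∃ a : ℝ, MvPolynomial.C a * P1 = MvPolynomial.C (D * N v₀) * P2 := by
    have h1 := DFunLike.congr_fun hp0 (M.mulVec v₀)
    rw [hp, Finsupp.sub_apply, Finsupp.finsetSum_apply, Finsupp.finsetSum_apply,
      Finsupp.zero_apply, sub_eq_zero] at h1
    have e2 : ∑ v ∈ N.support, (Finsupp.single (M.mulVec v)
        (MvPolynomial.C (D * N v) * P2)) (M.mulVec v₀) = MvPolynomial.C (D * N v₀) * P2 := by
      rw [Finset.sum_eq_single v₀]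
      · rw [Finsupp.single_eq_same]
      · intro v _ hne
        rw [Finsupp.single_eq_of_ne]
        intro h
        exact hne (hMinj h).symm
      · intro hn
        exact absurd (Finsupp.mem_support_iff.2 hv₀) hn
    rw [e2] at h1
    refine ⟨∑ s ∈ S, ∑ v ∈ N.support, if s + v = M.mulVec v₀ then N v else 0, ?_⟩
    rw [← h1, map_sum, Finset.sum_mul]
    apply Finset.sum_congr rfl
    intro s _
    rw [Finsupp.finsetSum_apply, map_sum, Finset.sum_mul]
    apply Finset.sum_congr rfl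
    intro v _
    rw [Finsupp.single_apply]
    by_cases h : s + v = M.mulVec v₀
    · rw [if_pos h, if_pos h]
    · rw [if_neg h, if_neg h, MvPolynomial.C_0, zero_mul]
  have hb : D * N v₀ ≠ 0 := mul_ne_zero hDne hv₀
  have hex : ∀ i, ∃ (j : Fin d) (c : ℝ), c ≠ 0 ∧ M.mulVec (u i) = c • u j := by
    intro i
    have hpr := lin_prime (hMune i)
    have hdvd : lin (M.mulVec (u i)) ∣ MvPolynomial.C (D * N v₀) * P2 := by
      rw [← hab]
      exact Dvd.dvd.mul_left (Finset.dvd_prod_of_mem _ (Finset.mem_univ i)) _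
    rcases hpr.dvd_or_dvd hdvd with h | h
    · exfalso
      have hunit : IsUnit (MvPolynomial.C (D * N v₀) : MvPolynomial (Fin d) ℝ) :=
        (isUnit_iff_ne_zero.2 hb).map MvPolynomial.C
      exact hpr.not_isUnit (isUnit_of_dvd_unit h hunit)
    · obtain ⟨j, _, hj⟩ := hpr.exists_mem_finset_dvd h
      obtain ⟨c, hc⟩ := lin_dvd (hMune i) hj
      have hcne : c ≠ 0 := by
        rintro rfl
        rw [zero_smul] at hc
        exact hune j hc
      refine ⟨j, c⁻¹, inv_ne_zero hcne, ?_⟩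
      rw [hc, smul_smul, inv_mul_cancel₀ hcne, one_smul]
  choose j c hc hj using hex
  have hjinj : Function.Injective j := by
    intro i i' hii
    by_contra hne
    have h1 : c i' • M.mulVec (u i) = c i • M.mulVec (u i') := by
      rw [hj i, hj i', hii, smul_smul, smul_smul, mul_comm]
    rw [← Matrix.mulVec_smul, ← Matrix.mulVec_smul] at h1
    have h2 := hMinj h1
    have h3 := linearIndependent_iff'.1 hu {i, i'} (fun k => if k = i then c i' else -(c i)) (by
      rw [Finset.sum_pair hne, if_pos rfl, if_neg (Ne.symm hne), h2, neg_smul, add_neg_cancel]) i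
      (by simp)
    rw [if_pos rfl] at h3
    exact hc i' h3
  have hbij : Function.Bijective j := Finite.injective_iff_bijective.1 hjinj
  exact ⟨Equiv.ofBijective j hbij, c, fun i => hj i⟩

end Pool.Agent.Q154.PA
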