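import Pool.Agent.Q15.PA.Stm

/-!
# Project PA, job PA-FIN: assembly
-/

set_option autoImplicit false

open MeasureTheory

namespace Pool.Agent.Q154.PA

open Pool.Agent.Q15.PA

theorem t_FIN : S_FIN := by
  intro hEX hPW hFE hCL hFUB hRAT hPOLY hLI hGAP hTAY hFAC hIND hM1 hDG hKP hCO hTR hLAP hZ1 hSGN
    hONE hCOR hNAT hHOM hID hTILE hNIV1 hNIV hPR hBX d G hatt hpoly
  obtain ⟨M, S, hA⟩ := hatt
  obtain ⟨hcpt, hcl, hconn, hU⟩ := hpoly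
  have hvol : volume G ≠ 0 :=
    (Measure.measure_pos_of_nonempty_interior volume hconn.nonempty).ne'
  obtain ⟨u, N, hu, hEq⟩ := hM1 hEX hFE hCL hRAT hFUB hPOLY hLI hGAP hTAY hFAC hIND d G M S hA hU hvol
  obtain ⟨σ, c, hσ⟩ := hDG hEX hFE hLI d G M S u N hA hvol hu hEq
  obtain ⟨k, μ, hk, hμ, hMk⟩ := hKP hEX d M u σ c hA.expanding hu hσ
  obtain ⟨S₁, hA1⟩ := hPW hEX d G M S k hA hk
  obtain ⟨U, G', N', S', hUdet, hGG', hS'ne, hE', hEqn⟩ :=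
    hCO hEX hFE hLI d G (M ^ k) S₁ u N μ hA1 hvol hu hEq hμ hMk
  obtain ⟨t1, t2, t3, t4, t5⟩ := hTR d U G G' hUdet hGG'
  have hae := hLAP d G' N' (t1 hcpt) hE'
  obtain ⟨hgood, hint, hae2⟩ := hZ1 d G' N' (t1 hcpt) (t4 hvol) hae
  have heqn : Eqn ((-1 : ℝ) ^ d • N') S' μ := by
    refine ⟨hS'ne, hμ, fun w => ?_⟩
    simp only [Finsupp.smul_apply, smul_eq_mul]
    rw [← Finset.mul_sum, hEqn w]
  obtain ⟨A, hAx⟩ := hPR hSGN hONE hCOR hNAT hHOM hID hTILE hNIV1 hNIV d _ S' μ hgood heqn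
  obtain ⟨a, b, hab, hG'⟩ := hBX d G' _ (t1 hcpt) (t2 hcl) (t3 hconn) hint hae2 ⟨A, hAx⟩
  exact t5 a b hab hG'

end Pool.Agent.Q154.PA
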