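import Pool.Agent.Q15.PA.Stm

/-!
# Project PA, job PA-HOM: a homomorphism to the rational numbers, integral and increasing on a finite set
-/

set_option autoImplicit false

namespace Pool.Agent.Q154.PA

open Pool.Agent.Q15.PA

lemma hom_rat (F : Finset ℝ) : ∃ ψ : ℝ →ₗ[ℚ] ℚ, ∀ x ∈ F, ∀ y ∈ F, x < y → ψ x < ψ y := by
  classical
  set W : Submodule ℚ ℝ := Submodule.span ℚ (F : Set ℝ) with hW
  have : FiniteDimensional ℚ W := FiniteDimensional.span_finset ℚ F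
  have hmem : ∀ x ∈ F, x ∈ W := fun x hx => Submodule.subset_span (Finset.mem_coe.2 hx)
  let b := Module.finBasis ℚ W
  set r := Module.finrank ℚ W
  -- coordinates
  have hsum : ∀ w : W, ((w : ℝ)) = ∑ k, (b.repr w k : ℝ) * ((b k : W) : ℝ) := by
    intro w
    have h1 := congrArg (fun z : W => (z : ℝ)) (b.sum_repr w)
    simp only [Submodule.coe_sum, Submodule.coe_smul] at h1
    refine h1.symm.trans ?_
    apply Finset.sum_congr rfl
    intro k _
    exact Rat.smul_def _ _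
  -- the open set
  set U : Set (Fin r → ℝ) := ⋂ p ∈ (F.attach ×ˢ F.attach).filter (fun p => (p.1 : ℝ) < p.2),
    {β | 0 < ∑ k, ((b.repr ⟨p.2, hmem _ p.2.2⟩ k : ℝ) - (b.repr ⟨p.1, hmem _ p.1.2⟩ k : ℝ)) * β k}
    with hU
  have hUo : IsOpen U := by
    apply isOpen_biInter_finset
    intro p _
    apply isOpen_lt continuous_const
    exact continuous_finsetSum _ (fun k _ => continuous_const.mul (continuous_apply k))
  have hbU : (fun k => ((b k : W) : ℝ)) ∈ U := by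
    simp only [hU, Set.mem_iInter]
    intro p hp
    obtain ⟨_, hlt⟩ := Finset.mem_filter.1 hp
    rw [Set.mem_ofPred_eq]
    simp only [sub_mul, Finset.sum_sub_distrib]
    rw [← hsum ⟨p.2, hmem _ p.2.2⟩, ← hsum ⟨p.1, hmem _ p.1.2⟩]
    simpa using hlt
  have hdense : DenseRange (fun q : Fin r → ℚ => fun k => ((q k : ℚ) : ℝ)) :=
    DenseRange.piMap (fun _ => Rat.denseRange_cast)
  obtain ⟨q, hq⟩ := hdense.exists_mem_open hUo ⟨_, hbU⟩
  obtain ⟨ψ, hψ⟩ := LinearMap.exists_extend (b.constr ℚ q)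
  refine ⟨ψ, fun x hx y hy hxy => ?_⟩
  have hval : ∀ w : W, ψ (w : ℝ) = ∑ k, b.repr w k * q k := by
    intro w
    have h1 := LinearMap.congr_fun hψ w
    rw [Module.Basis.constr_apply_fintype] at h1
    simpa using h1
  have h2 := hq
  simp only [hU, Set.mem_iInter] at h2
  have h3 := h2 (⟨x, hx⟩, ⟨y, hy⟩) (Finset.mem_filter.2 ⟨Finset.mem_product.2
    ⟨Finset.mem_attach _ _, Finset.mem_attach _ _⟩, hxy⟩)
  have h4 : (0 : ℝ) < ∑ k, ((b.repr ⟨y, hmem y hy⟩ k : ℝ) - (b.repr ⟨x, hmem x hx⟩ k : ℝ)) *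
      (q k : ℝ) := h3
  have h5 : ψ x = ∑ k, b.repr ⟨x, hmem x hx⟩ k * q k := hval ⟨x, hmem x hx⟩
  have h6 : ψ y = ∑ k, b.repr ⟨y, hmem y hy⟩ k * q k := hval ⟨y, hmem y hy⟩
  have h7 : ((ψ x : ℚ) : ℝ) < ((ψ y : ℚ) : ℝ) := by
    rw [h5, h6]
    push_cast
    simp only [sub_mul, Finset.sum_sub_distrib] at h4
    linarith
  exact_mod_cast h7

theorem t_HOM : S_HOM := by
  classical
  intro F
  obtain ⟨ψ, hψ⟩ := hom_rat F
  set D : ℕ := ∏ x ∈ F, (ψ x).den with hD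
  have hDpos : 0 < D := Finset.prod_pos (fun x _ => (ψ x).den_pos)
  refine ⟨(D : ℚ) • ψ, ?_, ?_⟩
  · intro x hx
    obtain ⟨e, he⟩ : (ψ x).den ∣ D := Finset.dvd_prod_of_mem _ hx
    refine ⟨e * (ψ x).num, ?_⟩
    rw [LinearMap.smul_apply, smul_eq_mul, he]
    push_cast
    have h1 : (ψ x) * ((ψ x).den : ℚ) = (ψ x).num := Rat.mul_den_eq_num _
    calc ((ψ x).den : ℚ) * e * ψ x = e * (ψ x * (ψ x).den) := by ring
      _ = _ := by rw [h1]
  · intro x hx y hy hxy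
    rw [LinearMap.smul_apply, LinearMap.smul_apply, smul_eq_mul, smul_eq_mul]
    exact mul_lt_mul_of_pos_left (hψ x hx y hy hxy) (by exact_mod_cast hDpos)

end Pool.Agent.Q154.PA
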