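import Pool.Agent.Q15.PA.Stm

/-!
# Project PA, job PA-KP: a power is diagonal with entries larger than one
-/

set_option autoImplicit false

namespace Pool.Agent.Q154.PA

open Pool.Agent.Q15.PA

lemma pow_form {d : ℕ} (M : Matrix (Fin d) (Fin d) ℝ) (u : Fin d → V d)
    (σ : Equiv.Perm (Fin d)) (c : V d) (h : ∀ i, M.mulVec (u i) = c i • u (σ i)) (n : ℕ) :
    ∃ C : V d, ∀ i, (M ^ n).mulVec (u i) = C i • u ((σ ^ n) i) := by
  induction n with
  | zero =>
    refine ⟨fun _ => 1, fun i => ?_⟩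
    simp
  | succ n ih =>
    obtain ⟨C, hC⟩ := ih
    refine ⟨fun i => c i * C (σ i), fun i => ?_⟩
    rw [pow_succ, ← Matrix.mulVec_mulVec, h i, Matrix.mulVec_smul, hC, smul_smul, pow_succ,
      Equiv.Perm.mul_apply]

theorem t_KP : S_KP := by
  intro hEX d M u σ c hM hu h
  obtain ⟨C, hC⟩ := pow_form M u σ c h (orderOf σ)
  have hr : 0 < orderOf σ := orderOf_pos σ
  have hk : 1 ≤ orderOf σ + orderOf σ := by omega
  have hpow : ∀ i, (M ^ (orderOf σ + orderOf σ)).mulVec (u i) = (C i * C i) • u i := by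
    intro i
    have h1 : (M ^ orderOf σ).mulVec (u i) = C i • u i := by
      have := hC i
      rw [pow_orderOf_eq_one] at this
      simpa using this
    rw [pow_add, ← Matrix.mulVec_mulVec, h1, Matrix.mulVec_smul, h1, smul_smul]
  refine ⟨orderOf σ + orderOf σ, fun i => C i * C i, hk, fun i => ?_, hpow⟩
  have hexp := (hEX d M hM).2.2 _ hk
  have hne : u i ≠ 0 := hu.ne_zero i
  have h2 := hexp ((C i * C i : ℝ) : ℂ) (fun j => ((u i j : ℝ) : ℂ)) (by
    intro h0
    apply hne
    funext j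
    have := congrFun h0 j
    simpa using this) (by
    funext j
    have h3 := congrFun (hpow i) j
    have h4 := RingHom.map_mulVec (algebraMap ℝ ℂ) (M ^ (orderOf σ + orderOf σ)) (u i) j
    rw [h3] at h4
    simp only [Pi.smul_apply, smul_eq_mul] at h4 ⊢
    have h5 : ((algebraMap ℝ ℂ) ∘ (u i)) = fun j => ((u i j : ℝ) : ℂ) := rfl
    rw [h5] at h4
    rw [← h4]
    simp)
  have h6 : ‖((C i * C i : ℝ) : ℂ)‖ = C i * C i := by
    rw [Complex.norm_real, Real.norm_eq_abs, abs_of_nonneg (mul_self_nonneg _)]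
  rw [h6] at h2
  exact h2

end Pool.Agent.Q154.PA
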