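import Pool.Agent.Q15.PA.Stm

/-!
# Project PA, job PA-NAT: the numbers `μ_i` are integers
-/

set_option autoImplicit false

namespace Pool.Agent.Q154.PA

open Pool.Agent.Q15.PA

lemma exists_below' (F : Finset ℝ) (t : ℝ) : ∃ y, y < t ∧ ∀ z ∈ F, z < t → z ≤ y := by
  classical
  induction F using Finset.induction_on with
  | empty => exact ⟨t - 1, by linarith, by simp⟩
  | insert a s _ ih =>
    obtain ⟨y, hy, hys⟩ := ih
    by_cases ha : a < t
    · refine ⟨max y a, max_lt hy ha, ?_⟩
      intro z hz hzt
      rcases Finset.mem_insert.1 hz with h | h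
      · rw [h]; exact le_max_right _ _
      · exact (hys z h hzt).trans (le_max_left _ _)
    · refine ⟨y, hy, ?_⟩
      intro z hz hzt
      rcases Finset.mem_insert.1 hz with h | h
      · exact absurd (h ▸ hzt) ha
      · exact hys z h hzt

/-- Abel summation -/
lemma abel_pos (a : ℝ → ℝ) (t₀ : ℝ) (ha : 0 < a t₀) (s : Finset ℝ) :
    (∀ x, 0 ≤ ∑ t ∈ s.filter (fun t => t ≤ x), a t) → t₀ ∈ s → (∀ t ∈ s, t₀ ≤ t) →
    ∀ y, (∀ t ∈ s, t < y) → 0 < ∑ t ∈ s, a t * (y - t) := by
  classical
  induction s using Finset.induction_on_max with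
  | empty => intro _ h; exact absurd h (Finset.notMem_empty _)
  | insert M s hM ih =>
    intro hH ht₀ hmin y hy
    have hMs : M ∉ s := fun h => lt_irrefl _ (hM M h)
    have hyM : M < y := hy M (Finset.mem_insert_self M s)
    rcases Finset.mem_insert.1 ht₀ with h | h
    · have hs : s = ∅ := by
        rw [Finset.eq_empty_iff_forall_notMem]
        intro x hx
        have h1 := hM x hx
        have h2 := hmin x (Finset.mem_insert_of_mem hx)
        rw [h] at h2
        linarith
      rw [hs, Finset.insert_empty, Finset.sum_singleton, ← h]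
      exact mul_pos ha (by rw [h]; linarith)
    · have hHs : ∀ x, 0 ≤ ∑ t ∈ s.filter (fun t => t ≤ x), a t := by
        intro x
        rcases lt_or_ge x M with hx | hx
        · have h1 := hH x
          rwa [Finset.filter_insert, if_neg (not_le.2 hx)] at h1
        · obtain ⟨y', hy', hys⟩ := exists_below' s M
          have h1 := hH y'
          rw [Finset.filter_insert, if_neg (not_le.2 hy')] at h1
          have e1 : s.filter (fun t => t ≤ x) = s :=
            Finset.filter_true_of_mem (fun t ht => (hM t ht).le.trans hx)
          have e2 : s.filter (fun t => t ≤ y') = s :=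
            Finset.filter_true_of_mem (fun t ht => hys t ht (hM t ht))
          rw [e1]
          rwa [e2] at h1
      have h2 := ih hHs h (fun t ht => hmin t (Finset.mem_insert_of_mem ht)) M hM
      have h3 : 0 ≤ ∑ t ∈ insert M s, a t := by
        have h1 := hH M
        have e1 : (insert M s).filter (fun t => t ≤ M) = insert M s := by
          apply Finset.filter_true_of_mem
          intro t ht
          rcases Finset.mem_insert.1 ht with h | h
          · exact h.le
          · exact (hM t h).le
        rwa [e1] at h1
      rw [Finset.sum_insert hMs] at h3 ⊢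
      have h4 : ∑ t ∈ s, a t * (y - t) = ∑ t ∈ s, a t * (M - t) + (y - M) * ∑ t ∈ s, a t := by
        rw [Finset.mul_sum, ← Finset.sum_add_distrib]
        apply Finset.sum_congr rfl
        intro t _
        ring
      rw [h4]
      have h5 : 0 ≤ (y - M) * (a M + ∑ t ∈ s, a t) := mul_nonneg (by linarith) h3
      linarith

lemma sum_shift (s U : Finset ℝ) (a f g e : ℝ → ℝ) (hU : ∀ t ∈ s, e t ∈ U)
    (ha : ∀ t, t ∉ s → a t = 0) (hg : ∀ t, g (e t) = t) (hg' : ∀ u, e (g u) = u) :
    ∑ u ∈ U, f u * a (g u) = ∑ t ∈ s, f (e t) * a t := by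
  classical
  have hinj : Function.Injective e := fun x y h => by rw [← hg x, ← hg y, h]
  have h1 : ∑ t ∈ s, f (e t) * a t = ∑ u ∈ s.image e, f u * a (g u) := by
    rw [Finset.sum_image (fun x _ y _ h => hinj h)]
    apply Finset.sum_congr rfl
    intro t _
    rw [hg]
  rw [h1]
  symm
  apply Finset.sum_subset
  · intro u hu
    obtain ⟨t, ht, rfl⟩ := Finset.mem_image.1 hu
    exact hU t ht
  · intro u _ hu
    have : g u ∉ s := fun h => hu (Finset.mem_image.2 ⟨g u, h, hg' u⟩)
    rw [ha _ this, mul_zero]

theorem t_NAT : S_NAT := by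
  classical
  intro d N S μ lo hi lo' hi' hG hE hc hc'
  obtain ⟨hSne, hμ, hEq⟩ := hE
  obtain ⟨hN0, hcum, R, hR⟩ := hG
  obtain ⟨hbd, hcr⟩ := hc
  obtain ⟨hbd', hcr'⟩ := hc'
  set F := N.support with hF
  have hlomem : lo ∈ F := by
    have := hcr ∅
    unfold crn at this
    simpa using this
  have hhimem : hi ∈ F := by
    have := hcr Set.univ
    unfold crn at this
    simpa using this
  have hlomem' : lo' ∈ S := by
    have := hcr' ∅
    unfold crn at this
    simpa using this
  have hhimem' : hi' ∈ S := by
    have := hcr' Set.univ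
    unfold crn at this
    simpa using this
  have hμ0 : ∀ i, 0 < μ i := fun i => by linarith [hμ i]
  have hmemF : ∀ v, N v ≠ 0 ↔ v ∈ F := fun v => Finsupp.mem_support_iff.symm
  -- (1)
  have h1 : ∀ i, lo i < hi i := by
    intro i
    by_contra hcon
    push Not at hcon
    set t : ℝ := max (lo i) (R + 1) with ht
    have h2 : cum N (Function.update lo i t) = N lo := by
      unfold cum
      rw [Finsupp.sum, Finset.sum_eq_single lo]
      · rw [if_pos]
        intro j
        by_cases hj : j = i
        · rw [hj, Function.update_self]; exact le_max_left _ _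
        · rw [Function.update_of_ne hj]
      · intro v hv hne
        apply if_neg
        intro hle
        apply hne
        funext j
        have h3 := (hbd v hv).1 j
        by_cases hj : j = i
        · have h4 := (hbd v hv).2 j
          rw [hj] at h3 h4 ⊢
          linarith
        · have h4 := hle j
          rw [Function.update_of_ne hj] at h4
          linarith
      · intro hn; exact absurd hlomem hn
    have h3 : cum N (Function.update lo i t) = 0 := by
      apply hR _ i
      rw [Function.update_self]
      exact lt_of_lt_of_le (by linarith) (le_max_right (lo i) (R + 1))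
    exact (hmemF lo).2 hlomem (by rw [← h2, h3])
  -- (2)
  have h2hi : ∀ i, hi' i = (μ i - 1) * hi i := by
    intro i
    have e1 : hi' i + hi i ≤ μ i * hi i := by
      have h3 := hEq (hi' + hi)
      rw [Finset.sum_eq_single hi'] at h3
      · rw [add_sub_cancel_left] at h3
        have h4 : (fun i => (hi' + hi) i / μ i) ∈ F := by
          rw [← hmemF, ← h3, hmemF]; exact hhimem
        have h5 := (hbd _ h4).2 i
        simp only [Pi.add_apply] at h5
        rw [div_le_iff₀ (hμ0 i)] at h5
        linarith
      · intro s hs hne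
        by_contra hcon
        apply hne
        have h4 := (hbd _ ((hmemF _).1 hcon)).2
        have h5 := (hbd' s hs).2
        funext j
        have h6 := h4 j
        have h7 := h5 j
        simp only [Pi.sub_apply, Pi.add_apply] at h6
        linarith
      · intro hn; exact absurd hhimem' hn
    have e2 : μ i * hi i ≤ hi' i + hi i := by
      have h3 := hEq (fun i => μ i * hi i)
      have h4 : (fun i => (μ i * hi i) / μ i) = hi := by
        funext j
        field_simp [(hμ0 j).ne']
      simp only [h4] at h3
      have h5 : ∑ s ∈ S, N ((fun i => μ i * hi i) - s) ≠ 0 := by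
        rw [h3, hmemF]; exact hhimem
      obtain ⟨s, hs, hne⟩ := Finset.exists_ne_zero_of_sum_ne_zero h5
      have h6 := (hbd _ ((hmemF _).1 hne)).2 i
      have h7 := (hbd' s hs).2 i
      simp only [Pi.sub_apply] at h6
      linarith
    linarith
  have h2lo : ∀ i, lo' i = (μ i - 1) * lo i := by
    intro i
    have e1 : μ i * lo i ≤ lo' i + lo i := by
      have h3 := hEq (lo' + lo)
      rw [Finset.sum_eq_single lo'] at h3
      · rw [add_sub_cancel_left] at h3
        have h4 : (fun i => (lo' + lo) i / μ i) ∈ F := by
          rw [← hmemF, ← h3, hmemF]; exact hlomem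
        have h5 := (hbd _ h4).1 i
        simp only [Pi.add_apply] at h5
        rw [le_div_iff₀ (hμ0 i)] at h5
        linarith
      · intro s hs hne
        by_contra hcon
        apply hne
        have h4 := (hbd _ ((hmemF _).1 hcon)).1
        have h5 := (hbd' s hs).1
        funext j
        have h6 := h4 j
        have h7 := h5 j
        simp only [Pi.sub_apply, Pi.add_apply] at h6
        linarith
      · intro hn; exact absurd hlomem' hn
    have e2 : lo' i + lo i ≤ μ i * lo i := by
      have h3 := hEq (fun i => μ i * lo i)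
      have h4 : (fun i => (μ i * lo i) / μ i) = lo := by
        funext j
        field_simp [(hμ0 j).ne']
      simp only [h4] at h3
      have h5 : ∑ s ∈ S, N ((fun i => μ i * lo i) - s) ≠ 0 := by
        rw [h3, hmemF]; exact hlomem
      obtain ⟨s, hs, hne⟩ := Finset.exists_ne_zero_of_sum_ne_zero h5
      have h6 := (hbd _ ((hmemF _).1 hne)).1 i
      have h7 := (hbd' s hs).1 i
      simp only [Pi.sub_apply] at h6
      linarith
    linarith
  refine ⟨h1, fun i => ⟨h2lo i, h2hi i⟩, fun i => ?_⟩
  -- (3)
  set a : ℝ → ℝ := fun t => N (Function.update lo i t) with haa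
  set F' : Finset (V d) := F.filter (fun v => ∀ j, j ≠ i → v j = lo j) with hF'
  set s : Finset ℝ := F'.image (fun v => v i) with hs
  have hupd : ∀ v ∈ F', Function.update lo i (v i) = v := by
    intro v hv
    funext j
    by_cases hj : j = i
    · rw [hj, Function.update_self]
    · rw [Function.update_of_ne hj]; exact ((Finset.mem_filter.1 hv).2 j hj).symm
  have ha0 : ∀ t, t ∉ s → a t = 0 := by
    intro t ht
    by_contra hne
    apply ht
    refine Finset.mem_image.2 ⟨Function.update lo i t, Finset.mem_filter.2 ⟨(hmemF _).1 hne, ?_⟩,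
      Function.update_self i t lo⟩
    intro j hj
    rw [Function.update_of_ne hj]
  have hinj : Set.InjOn (fun v : V d => v i) F' := by
    intro v hv w hw hvw
    rw [← hupd v (Finset.mem_coe.1 hv), ← hupd w (Finset.mem_coe.1 hw)]
    simp only at hvw
    rw [hvw]
  have hcuma : ∀ x, cum N (Function.update lo i x) = ∑ t ∈ s.filter (fun t => t ≤ x), a t := by
    intro x
    rw [Finset.sum_filter, hs, Finset.sum_image hinj]
    unfold cum
    rw [Finsupp.sum]
    have h3 : ∑ v ∈ F', (if v i ≤ x then a (v i) else 0) =
        ∑ v ∈ F', if v ≤ Function.update lo i x then N v else 0 := by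
      apply Finset.sum_congr rfl
      intro v hv
      have h4 : a (v i) = N v := by
        simp only [haa]
        rw [hupd v hv]
      have h5 : (v i ≤ x) ↔ v ≤ Function.update lo i x := by
        constructor
        · intro h j
          by_cases hj : j = i
          · rw [hj, Function.update_self]; exact h
          · rw [Function.update_of_ne hj]; exact ((Finset.mem_filter.1 hv).2 j hj).le
        · intro h
          have := h i
          rwa [Function.update_self] at this
      rw [h4]
      simp only [h5]
    rw [h3]
    symm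
    apply Finset.sum_subset (Finset.filter_subset _ _)
    intro v hv hn
    apply if_neg
    intro hle
    apply hn
    refine Finset.mem_filter.2 ⟨hv, fun j hj => ?_⟩
    have h4 := hle j
    rw [Function.update_of_ne hj] at h4
    exact le_antisymm h4 ((hbd v hv).1 j)
  -- the point `lo i`
  have hlos : lo i ∈ s := by
    refine Finset.mem_image.2 ⟨lo, Finset.mem_filter.2 ⟨hlomem, fun j _ => rfl⟩, rfl⟩
  have hmin : ∀ t ∈ s, lo i ≤ t := by
    intro t ht
    obtain ⟨v, hv, rfl⟩ := Finset.mem_image.1 ht
    exact (hbd v (Finset.mem_filter.1 hv).1).1 i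
  have hnn : ∀ x, 0 ≤ ∑ t ∈ s.filter (fun t => t ≤ x), a t := by
    intro x
    rw [← hcuma x]
    rcases hcum (Function.update lo i x) with h | h
    · rw [h]
    · rw [h]; exact zero_le_one
  have halo : 0 < a (lo i) := by
    have h3 : s.filter (fun t => t ≤ lo i) = {lo i} := by
      ext t
      rw [Finset.mem_filter, Finset.mem_singleton]
      constructor
      · rintro ⟨h4, h5⟩
        exact le_antisymm h5 (hmin t h4)
      · rintro rfl
        exact ⟨hlos, le_refl _⟩
    have h4 := hnn (lo i)
    rw [h3, Finset.sum_singleton] at h4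
    refine lt_of_le_of_ne h4 (Ne.symm ?_)
    simp only [haa]
    rw [Function.update_eq_self]
    exact (hmemF lo).2 hlomem
  obtain ⟨Y, hY⟩ : ∃ Y : ℝ, ∀ t ∈ s, t < Y := by
    obtain ⟨T, hT⟩ := s.bddAbove
    exact ⟨T + 1, fun t ht => lt_of_le_of_lt (hT (Finset.mem_coe.2 ht)) (by linarith)⟩
  have hsum0 : ∑ t ∈ s, a t = 0 := by
    have h3 := hcuma (max Y (R + 1))
    rw [hR _ i (by
      rw [Function.update_self]
      exact lt_of_lt_of_le (by linarith) (le_max_right Y (R + 1)))] at h3
    have h4 : s.filter (fun t => t ≤ max Y (R + 1)) = s :=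
      Finset.filter_true_of_mem (fun t ht => (hY t ht).le.trans (le_max_left _ _))
    rw [h4] at h3
    exact h3.symm
  set A : ℝ := ∑ t ∈ s, t * a t with hA
  have hAne : A ≠ 0 := by
    have h3 := abel_pos a (lo i) halo s hnn hlos hmin Y hY
    have h4 : ∑ t ∈ s, a t * (Y - t) = Y * ∑ t ∈ s, a t - A := by
      rw [hA, Finset.mul_sum, ← Finset.sum_sub_distrib]
      apply Finset.sum_congr rfl
      intro t _
      ring
    rw [h4, hsum0, mul_zero, zero_sub] at h3
    intro h0
    rw [h0] at h3
    simp at h3
  set τ : Finset (V d) := S.filter (fun σ => ∀ j, j ≠ i → σ j = lo' j) with hτ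
  have hkey : ∀ u : ℝ, ∑ σ ∈ τ, a (u - σ i) = a (u / μ i) := by
    intro u
    have h3 := hEq (Function.update (fun j => μ j * lo j) i u)
    have h4 : (fun j => (Function.update (fun j => μ j * lo j) i u) j / μ j) =
        Function.update lo i (u / μ i) := by
      funext j
      by_cases hj : j = i
      · rw [hj, Function.update_self, Function.update_self]
      · rw [Function.update_of_ne hj, Function.update_of_ne hj]
        field_simp [(hμ0 j).ne']
    rw [h4] at h3
    simp only [haa]
    rw [← h3]
    have h5 : ∑ σ ∈ τ, N (Function.update lo i (u - σ i)) =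
        ∑ σ ∈ τ, N (Function.update (fun j => μ j * lo j) i u - σ) := by
      apply Finset.sum_congr rfl
      intro σ hσ
      congr 1
      funext j
      rw [Pi.sub_apply]
      by_cases hj : j = i
      · rw [hj, Function.update_self, Function.update_self]
      · rw [Function.update_of_ne hj, Function.update_of_ne hj, (Finset.mem_filter.1 hσ).2 j hj,
          h2lo j]
        ring
    rw [h5]
    apply Finset.sum_subset (Finset.filter_subset _ _)
    intro σ hσ hn
    by_contra hne
    apply hn
    refine Finset.mem_filter.2 ⟨hσ, fun j hj => ?_⟩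
    have h6 := (hbd _ ((hmemF _).1 hne)).1 j
    have h7 := (hbd' σ hσ).1 j
    rw [Pi.sub_apply, Function.update_of_ne hj] at h6
    rw [h2lo j] at h7 ⊢
    linarith
  set U : Finset ℝ := (τ ×ˢ s).image (fun p => p.2 + p.1 i) ∪ s.image (fun t => μ i * t) with hU
  have hL : ∑ u ∈ U, u * ∑ σ ∈ τ, a (u - σ i) = (τ.card : ℝ) * A := by
    simp only [Finset.mul_sum]
    rw [Finset.sum_comm]
    have h3 : ∀ σ ∈ τ, ∑ u ∈ U, u * a (u - σ i) = A := by
      intro σ hσ
      have h4 := sum_shift s U a (fun u => u) (fun u => u - σ i) (fun t => t + σ i)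
        (fun t ht => Finset.mem_union_left _ (Finset.mem_image.2
          ⟨(σ, t), Finset.mem_product.2 ⟨hσ, ht⟩, rfl⟩)) ha0 (fun t => by ring) (fun u => by ring)
      rw [h4]
      have h5 : ∑ t ∈ s, (t + σ i) * a t = A + σ i * ∑ t ∈ s, a t := by
        rw [hA, Finset.mul_sum, ← Finset.sum_add_distrib]
        apply Finset.sum_congr rfl
        intro t _
        ring
      rw [h5, hsum0, mul_zero, add_zero]
    rw [Finset.sum_congr rfl h3, Finset.sum_const, nsmul_eq_mul]
  have hRr : ∑ u ∈ U, u * a (u / μ i) = μ i * A := by
    have h4 := sum_shift s U a (fun u => u) (fun u => u / μ i) (fun t => μ i * t)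
      (fun t ht => Finset.mem_union_right _ (Finset.mem_image_of_mem _ ht)) ha0
      (fun t => by field_simp [(hμ0 i).ne']) (fun u => by field_simp [(hμ0 i).ne'])
    rw [h4, hA, Finset.mul_sum]
    apply Finset.sum_congr rfl
    intro t _
    ring
  have hfin : μ i = (τ.card : ℝ) := by
    have h3 : (τ.card : ℝ) * A = μ i * A := by
      rw [← hL, ← hRr]
      apply Finset.sum_congr rfl
      intro u _
      rw [hkey u]
    exact (mul_right_cancel₀ hAne h3).symm
  refine ⟨τ.card, ?_, hfin⟩
  have h3 := hμ i
  rw [hfin] at h3
  have h4 : 1 < τ.card := by exact_mod_cast h3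
  omega

end Pool.Agent.Q154.PA
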