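import Pool.Agent.Q15.PA.Stm

/-!
# Project PA, job PA-NIV: tiles of `ℕ^d` are products
-/

set_option autoImplicit false

namespace Pool.Agent.Q154.PA

open Pool.Agent.Q15.PA

/-- the points of `A` on the line through `q` in the direction `i` -/
def line {d : ℕ} (A : Set (Fin d →₀ ℕ)) (i : Fin d) (q : Fin d →₀ ℕ) : Set ℕ :=
  {n | q + Finsupp.single i n ∈ A}

lemma mem_line {d : ℕ} {A : Set (Fin d →₀ ℕ)} {i : Fin d} {q : Fin d →₀ ℕ} {n : ℕ} :
    n ∈ line A i q ↔ q + Finsupp.single i n ∈ A := Iff.rfl

lemma tiles_rep {M : Type} [Add M] {A B : Set M} (h : Tiles A B) (x : M) :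
    ∃ a b : M, a ∈ A ∧ b ∈ B ∧ a + b = x := by
  obtain ⟨⟨a, b⟩, ⟨h1, h2, h3⟩, -⟩ := h x
  exact ⟨a, b, h1, h2, h3⟩

lemma tiles_uniq {M : Type} [Add M] {A B : Set M} (h : Tiles A B) {a b a' b' : M}
    (ha : a ∈ A) (hb : b ∈ B) (ha' : a' ∈ A) (hb' : b' ∈ B) (he : a + b = a' + b') :
    a = a' ∧ b = b' := by
  obtain ⟨x, -, hx⟩ := h (a' + b')
  have h1 := hx (a, b) ⟨ha, hb, he⟩
  have h2 := hx (a', b') ⟨ha', hb', rfl⟩
  have h3 : (a, b) = (a', b') := h1.trans h2.symm
  exact ⟨congrArg Prod.fst h3, congrArg Prod.snd h3⟩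

lemma erase_add {d : ℕ} (i : Fin d) (a : Fin d →₀ ℕ) :
    a.erase i + Finsupp.single i (a i) = a := Finsupp.erase_add_single i a

lemma erase_self {d : ℕ} (i : Fin d) (a : Fin d →₀ ℕ) : (a.erase i) i = 0 := Finsupp.erase_same

/-- components of a sum decomposition -/
lemma split_eq {d : ℕ} {i : Fin d} {q a b : Fin d →₀ ℕ} {n : ℕ} (hq : q i = 0)
    (h : a + b = q + Finsupp.single i n) :
    a.erase i + b.erase i = q ∧ a i + b i = n := by
  classical
  constructor
  · ext j
    by_cases hj : j = i
    · subst hj
      simp [hq]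
    · have h1 := DFunLike.congr_fun h j
      simp only [Finsupp.add_apply, Finsupp.erase_ne hj, Finsupp.single_apply] at h1 ⊢
      have : ¬ i = j := fun h => hj h.symm
      simp only [this, if_false, add_zero] at h1
      exact h1
  · have h1 := DFunLike.congr_fun h i
    simpa [hq] using h1

lemma line_key (h1 : S_NIV1) {d : ℕ} (A B : Set (Fin d →₀ ℕ)) (hT : Tiles A B) (i : Fin d) (n₀ : ℕ)
    (hn : Finsupp.single i n₀ ∈ A) (hle : ∀ a ∈ A, a i ≤ n₀) (h0A : (0 : Fin d →₀ ℕ) ∈ A)
    (h0B : (0 : Fin d →₀ ℕ) ∈ B) :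
    ∀ q : Fin d →₀ ℕ, q i = 0 → (line A i q = ∅ ∨ line A i q = line A i 0) ∧
      (line B i q = ∅ ∨ line B i q = line B i 0) := by
  classical
  -- the line through `0`
  have hT0 : Tiles (line A i 0) (line B i 0) := by
    intro n
    obtain ⟨a, b, ha, hb, hab⟩ := tiles_rep hT (Finsupp.single i n)
    have h2 : a + b = 0 + Finsupp.single i n := by rw [zero_add]; exact hab
    obtain ⟨h3, h4⟩ := split_eq (q := 0) rfl h2
    have h5 : a.erase i = 0 ∧ b.erase i = 0 := add_eq_zero.1 h3
    have h6 : (0 : Fin d →₀ ℕ) + Finsupp.single i (a i) = a := by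
      rw [← h5.1]; exact erase_add i a
    have h7 : (0 : Fin d →₀ ℕ) + Finsupp.single i (b i) = b := by
      rw [← h5.2]; exact erase_add i b
    refine ⟨(a i, b i), ⟨?_, ?_, h4⟩, ?_⟩
    · rw [mem_line, h6]; exact ha
    · rw [mem_line, h7]; exact hb
    · rintro ⟨x, y⟩ ⟨hx, hy, hxy⟩
      rw [mem_line, zero_add] at hx hy
      simp only at hx hy hxy
      have h8 : Finsupp.single i x + Finsupp.single i y = a + b := by
        rw [← Finsupp.single_add, hxy, hab]
      obtain ⟨h9, h10⟩ := tiles_uniq hT hx hy ha hb h8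
      rw [← h9, ← h10]
      simp
  intro q
  induction q using WellFoundedLT.induction with
  | ind q ih =>
  intro hq
  by_cases hq0 : q = 0
  · subst hq0
    exact ⟨Or.inr rfl, Or.inr rfl⟩
  by_cases hex : ∃ q' q'' : Fin d →₀ ℕ, q' ≠ 0 ∧ q'' ≠ 0 ∧ q' + q'' = q ∧
      line A i q' = line A i 0 ∧ line B i q'' = line B i 0
  · obtain ⟨q', q'', hq', hq'', hqq, hA, hB⟩ := hex
    have hrep : ∀ n, ∃ a b, a ∈ A ∧ b ∈ B ∧ a + b = q + Finsupp.single i n ∧
        a ≠ 0 ∧ b ≠ 0 := by
      intro n
      obtain ⟨x, y, hx, hy, hxy⟩ := tiles_rep hT0 n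
      rw [← hA, mem_line] at hx
      rw [← hB, mem_line] at hy
      refine ⟨_, _, hx, hy, ?_, ?_, ?_⟩
      · rw [← hqq, ← hxy, Finsupp.single_add]
        abel
      · intro h; exact hq' (add_eq_zero.1 h).1
      · intro h; exact hq'' (add_eq_zero.1 h).1
    constructor
    · left
      rw [Set.eq_empty_iff_forall_notMem]
      intro n hn
      rw [mem_line] at hn
      obtain ⟨a, b, ha, hb, hab, ha0, hb0⟩ := hrep n
      have := tiles_uniq hT hn h0B ha hb (by rw [add_zero, hab])
      exact hb0 this.2.symm
    · left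
      rw [Set.eq_empty_iff_forall_notMem]
      intro n hn
      rw [mem_line] at hn
      obtain ⟨a, b, ha, hb, hab, ha0, hb0⟩ := hrep n
      have := tiles_uniq hT h0A hn ha hb (by rw [zero_add, hab])
      exact ha0 this.1.symm
  · have hT2 : Tiles2 (line A i 0) (line B i 0) (line A i q) (line B i q) := by
      intro n
      have hval : ∀ x : ℕ × ℕ × Bool, (x.1 + x.2.1 = n ∧
          (if x.2.2 = true then x.1 ∈ line A i q ∧ x.2.1 ∈ line B i 0
            else x.1 ∈ line A i 0 ∧ x.2.1 ∈ line B i q)) →
          ((if x.2.2 = true then q else 0) + Finsupp.single i x.1 ∈ A ∧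
            (if x.2.2 = true then 0 else q) + Finsupp.single i x.2.1 ∈ B ∧
            ((if x.2.2 = true then q else 0) + Finsupp.single i x.1) +
            ((if x.2.2 = true then 0 else q) + Finsupp.single i x.2.1) =
              q + Finsupp.single i n) := by
        rintro ⟨x, y, s⟩ ⟨h2, h3⟩
        simp only at h2 h3 ⊢
        cases s
        · simp only [Bool.false_eq_true, if_false] at h3 ⊢
          rw [mem_line, mem_line] at h3
          refine ⟨h3.1, h3.2, ?_⟩
          rw [← h2, Finsupp.single_add]; abel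
        · simp only [if_true] at h3 ⊢
          rw [mem_line, mem_line] at h3
          refine ⟨h3.1, h3.2, ?_⟩
          rw [← h2, Finsupp.single_add]; abel
      obtain ⟨a, b, ha, hb, hab⟩ := tiles_rep hT (q + Finsupp.single i n)
      obtain ⟨h3, h4⟩ := split_eq hq hab
      have haL : a i ∈ line A i (a.erase i) := by rw [mem_line, erase_add]; exact ha
      have hbL : b i ∈ line B i (b.erase i) := by rw [mem_line, erase_add]; exact hb
      have hexi : ∃ x : ℕ × ℕ × Bool, x.1 + x.2.1 = n ∧
          (if x.2.2 = true then x.1 ∈ line A i q ∧ x.2.1 ∈ line B i 0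
            else x.1 ∈ line A i 0 ∧ x.2.1 ∈ line B i q) := by
        by_cases hb0 : b.erase i = 0
        · have ha0 : a.erase i = q := by rw [← h3, hb0, add_zero]
          refine ⟨(a i, b i, true), h4, ?_⟩
          simp only [if_true]
          rw [ha0] at haL
          rw [hb0] at hbL
          exact ⟨haL, hbL⟩
        · by_cases ha0 : a.erase i = 0
          · have hb1 : b.erase i = q := by rw [← h3, ha0, zero_add]
            refine ⟨(a i, b i, false), h4, ?_⟩
            simp only [Bool.false_eq_true, if_false]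
            rw [ha0] at haL
            rw [hb1] at hbL
            exact ⟨haL, hbL⟩
          · exfalso
            apply hex
            have hlt1 : a.erase i < q := by
              rw [← h3]; exact lt_add_of_pos_right _ (pos_iff_ne_zero.2 hb0)
            have hlt2 : b.erase i < q := by
              rw [← h3]; exact lt_add_of_pos_left _ (pos_iff_ne_zero.2 ha0)
            refine ⟨a.erase i, b.erase i, ha0, hb0, h3, ?_, ?_⟩
            · rcases (ih _ hlt1 (erase_self i a)).1 with h | h
              · rw [h] at haL; exact absurd haL (Set.notMem_empty _)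
              · exact h
            · rcases (ih _ hlt2 (erase_self i b)).2 with h | h
              · rw [h] at hbL; exact absurd hbL (Set.notMem_empty _)
              · exact h
      obtain ⟨x, hx⟩ := hexi
      refine ⟨x, hx, ?_⟩
      intro y hy
      obtain ⟨e1, e2, e3⟩ := hval x hx
      obtain ⟨f1, f2, f3⟩ := hval y hy
      obtain ⟨g1, g2⟩ := tiles_uniq hT f1 f2 e1 e2 (f3.trans e3.symm)
      obtain ⟨x1, x2, s⟩ := x
      obtain ⟨y1, y2, t⟩ := y
      simp only at g1 g2 ⊢
      have hqn : ∀ m : ℕ × ℕ, ¬ (q + Finsupp.single i m.1 = Finsupp.single i m.2) := by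
        intro m hm
        apply hq0
        ext j
        by_cases hj : j = i
        · subst hj; simpa using hq
        · have h5 := DFunLike.congr_fun hm j
          have h6 : ¬ i = j := fun h => hj h.symm
          simpa [Finsupp.single_apply, h6] using h5
      cases s <;> cases t <;> simp only [Bool.false_eq_true, if_false, if_true, zero_add] at g1 g2
      · have k1 := (Finsupp.single_injective i) g1
        have k2 := (Finsupp.single_injective i) (add_left_cancel g2)
        rw [k1, k2]
      · exact absurd g1 (hqn (y1, x1))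
      · exact absurd g2 (hqn (y2, x2))
      · have k1 := (Finsupp.single_injective i) (add_left_cancel g1)
        have k2 := (Finsupp.single_injective i) g2
        rw [k1, k2]
    have hfin := h1 (line A i 0) (line B i 0) (line A i q) (line B i q) n₀
      (by rw [mem_line, zero_add]; exact hn)
      (by
        intro a ha
        have := hle _ ha
        simpa using this)
      (by
        intro c hc
        have := hle _ hc
        simpa [hq] using this) hT0 hT2
    rcases hfin with ⟨h5, h6⟩ | ⟨h5, h6⟩
    · exact ⟨Or.inr h5, Or.inl h6⟩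
    · exact ⟨Or.inl h5, Or.inr h6⟩

theorem t_NIV : S_NIV := by
  classical
  intro h1 d A B hT hb
  have h00 : (0 : Fin d →₀ ℕ) ∈ A ∧ (0 : Fin d →₀ ℕ) ∈ B := by
    obtain ⟨a, b, ha, hb, hab⟩ := tiles_rep hT 0
    obtain ⟨h2, h3⟩ := add_eq_zero.1 hab
    rw [h2] at ha
    rw [h3] at hb
    exact ⟨ha, hb⟩
  have hstep : ∀ (i : Fin d) (a : Fin d →₀ ℕ), a ∈ A ↔
      (Finsupp.single i (a i) ∈ A ∧ a.erase i ∈ A) := by
    intro i a
    obtain ⟨n₀, hn, hle⟩ := hb i
    have hk := (line_key h1 A B hT i n₀ hn hle h00.1 h00.2 (a.erase i) (erase_self i a)).1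
    have h0 : (0 : ℕ) ∈ line A i 0 := by
      rw [mem_line]; simpa using h00.1
    constructor
    · intro ha
      have haL : a i ∈ line A i (a.erase i) := by rw [mem_line, erase_add]; exact ha
      rcases hk with h | h
      · rw [h] at haL; exact absurd haL (Set.notMem_empty _)
      · constructor
        · rw [h, mem_line, zero_add] at haL
          exact haL
        · rw [← h, mem_line] at h0
          simpa using h0
    · rintro ⟨ha, hq⟩
      have h2 : (0 : ℕ) ∈ line A i (a.erase i) := by
        rw [mem_line]; simpa using hq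
      rcases hk with h | h
      · rw [h] at h2; exact absurd h2 (Set.notMem_empty _)
      · have h3 : a i ∈ line A i 0 := by rw [mem_line, zero_add]; exact ha
        rw [← h, mem_line, erase_add] at h3
        exact h3
  have hall : ∀ (s : Finset (Fin d)) (a : Fin d →₀ ℕ), a.support ⊆ s →
      (a ∈ A ↔ ∀ i ∈ s, Finsupp.single i (a i) ∈ A) := by
    intro s
    induction s using Finset.induction_on with
    | empty =>
      intro a ha
      have h2 : a = 0 := by
        rw [← Finsupp.support_eq_empty]
        exact Finset.subset_empty.1 ha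
      rw [h2]
      simp [h00.1]
    | insert i s hi ih =>
      intro a ha
      rw [hstep i a]
      have hsub : (a.erase i).support ⊆ s := by
        intro j hj
        rw [Finsupp.support_erase, Finset.mem_erase] at hj
        exact Finset.mem_of_mem_insert_of_ne (ha hj.2) hj.1
      rw [ih _ hsub, Finset.forall_mem_insert]
      apply and_congr Iff.rfl
      apply forall_congr'
      intro j
      apply forall_congr'
      intro hj
      have hji : j ≠ i := fun h => hi (h ▸ hj)
      rw [Finsupp.erase_ne hji]
  intro a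
  rw [hall Finset.univ a (Finset.subset_univ _)]
  simp

end Pool.Agent.Q154.PA
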