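import Pool.Agent.Q15.PA.Stm

/-!
# Project PA, job PA-NIV1: the one-dimensional lemma
-/

set_option autoImplicit false

namespace Pool.Agent.Q154.PA

open Pool.Agent.Q15.PA

structure T1 (A B : Set ℕ) : Prop where
  ex : ∀ n, ∃ a ∈ A, ∃ b ∈ B, a + b = n
  un : ∀ a ∈ A, ∀ b ∈ B, ∀ a' ∈ A, ∀ b' ∈ B, a + b = a' + b' → a = a' ∧ b = b'

structure T2 (A B C D : Set ℕ) : Prop where
  ex : ∀ n, (∃ c ∈ C, ∃ b ∈ B, c + b = n) ∨ (∃ a ∈ A, ∃ d ∈ D, a + d = n)
  unC : ∀ c ∈ C, ∀ b ∈ B, ∀ c' ∈ C, ∀ b' ∈ B, c + b = c' + b' → c = c' ∧ b = b'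
  unA : ∀ a ∈ A, ∀ d ∈ D, ∀ a' ∈ A, ∀ d' ∈ D, a + d = a' + d' → a = a' ∧ d = d'
  no : ∀ c ∈ C, ∀ b ∈ B, ∀ a ∈ A, ∀ d ∈ D, c + b ≠ a + d

lemma T1.symm {A B : Set ℕ} (h : T1 A B) : T1 B A := by
  constructor
  · intro n
    obtain ⟨a, ha, b, hb, hab⟩ := h.ex n
    exact ⟨b, hb, a, ha, by omega⟩
  · intro b hb a ha b' hb' a' ha' he
    have := h.un a ha b hb a' ha' b' hb' (by omega)
    exact ⟨this.2, this.1⟩

lemma T2.symm {A B C D : Set ℕ} (h : T2 A B C D) : T2 B A D C := by
  constructor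
  · intro n
    rcases h.ex n with ⟨c, hc, b, hb, he⟩ | ⟨a, ha, d, hd, he⟩
    · exact Or.inr ⟨b, hb, c, hc, by omega⟩
    · exact Or.inl ⟨d, hd, a, ha, by omega⟩
  · intro d hd a ha d' hd' a' ha' he
    have := h.unA a ha d hd a' ha' d' hd' (by omega)
    exact ⟨this.2, this.1⟩
  · intro b hb c hc b' hb' c' hc' he
    have := h.unC c hc b hb c' hc' b' hb' (by omega)
    exact ⟨this.2, this.1⟩
  · intro d hd a ha b hb c hc he
    exact h.no c hc b hb a ha d hd (by omega)

lemma euc {r x y i j : ℕ} (hi : i < r) (hj : j < r) (h : r * x + i = r * y + j) :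
    x = y ∧ i = j := by
  have hr : 0 < r := by omega
  have h1 : (r * x + i) / r = x := by
    rw [Nat.mul_add_div hr, Nat.div_eq_of_lt hi, add_zero]
  have h2 : (r * y + j) / r = y := by
    rw [Nat.mul_add_div hr, Nat.div_eq_of_lt hj, add_zero]
  have h3 : x = y := by rw [← h1, ← h2, h]
  subst h3
  exact ⟨rfl, by omega⟩

lemma T1.zero {A B : Set ℕ} (h : T1 A B) : 0 ∈ A ∧ 0 ∈ B := by
  obtain ⟨a, ha, b, hb, hab⟩ := h.ex 0
  have h1 : a = 0 := by omega
  have h2 : b = 0 := by omega
  exact ⟨h1 ▸ ha, h2 ▸ hb⟩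

/-- the block lemma for `A`, `B` -/
lemma block1 {A B : Set ℕ} (hT : T1 A B) {r : ℕ} (hr : 2 ≤ r) (hrB : r ∈ B)
    (hmin : ∀ b ∈ B, 0 < b → r ≤ b) :
    ∀ k i, i < r → (r * k + i ∈ A ↔ r * k ∈ A) ∧ (r * k + i ∈ B → i = 0) := by
  obtain ⟨h0A, h0B⟩ := hT.zero
  have hsmall : ∀ j, j < r → j ∈ A := by
    intro j hj
    obtain ⟨a, ha, b, hb, hab⟩ := hT.ex j
    have hb0 : b = 0 := by
      by_contra hne
      have := hmin b hb (by omega)
      omega
    have : a = j := by omega
    exact this ▸ ha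
  intro k
  induction k using Nat.strong_induction_on with
  | _ k ih =>
  intro i hi
  rcases Nat.eq_zero_or_pos k with hk0 | hkpos
  · subst hk0
    simp only [mul_zero, zero_add]
    refine ⟨⟨fun _ => h0A, fun _ => hsmall i hi⟩, ?_⟩
    intro hiB
    by_contra hne
    have := hmin i hiB (by omega)
    omega
  have hrk : r ≤ r * k := Nat.le_mul_of_pos_right r hkpos
  by_cases hI : ∃ a ∈ A, ∃ b ∈ B, a < r * k ∧ b < r * k ∧ ∃ j, j < r ∧ a + b = r * k + j
  · obtain ⟨a, ha, b, hb, halt, hblt, j, hj, hab⟩ := hI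
    have hka : a / r < k := by
      rw [Nat.div_lt_iff_lt_mul (by omega)]; rwa [mul_comm] at halt
    have hkb : b / r < k := by
      rw [Nat.div_lt_iff_lt_mul (by omega)]; rwa [mul_comm] at hblt
    have ea := Nat.div_add_mod a r
    have eb := Nat.div_add_mod b r
    have hma : a % r < r := Nat.mod_lt _ (by omega)
    have hmb : b % r < r := Nat.mod_lt _ (by omega)
    have hb0 : b % r = 0 := (ih _ hkb _ hmb).2 (by rw [eb]; exact hb)
    have hA1 : r * (a / r) ∈ A := (ih _ hka _ hma).1.1 (by rw [ea]; exact ha)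
    have hB1 : r * (b / r) ∈ B := by
      have : r * (b / r) = b := by omega
      rw [this]; exact hb
    have hsum : a / r + b / r = k := by
      refine (euc hma hj ?_).1
      rw [mul_add]
      omega
    have hcov : ∀ j, j < r → r * (a / r) + j ∈ A := fun j hj => (ih _ hka j hj).1.2 hA1
    have hkk : r * k = r * (a / r) + r * (b / r) := by rw [← mul_add, hsum]
    have hka1 : 1 ≤ a / r := by omega
    have hkb1 : 1 ≤ b / r := by omega
    have hra : r ≤ r * (a / r) := Nat.le_mul_of_pos_right r hka1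
    have hrb : r ≤ r * (b / r) := Nat.le_mul_of_pos_right r hkb1
    have hnoA : ∀ j, j < r → r * k + j ∉ A := by
      intro j hj hc
      have := (hT.un _ hc 0 h0B _ (hcov j hj) _ hB1 (by omega)).2
      omega
    have hnoB : ∀ j, j < r → r * k + j ∉ B := by
      intro j hj hc
      have := (hT.un 0 h0A _ hc _ (hcov j hj) _ hB1 (by omega)).1
      omega
    refine ⟨⟨fun h => absurd h (hnoA i hi), fun h => absurd h ?_⟩, fun h => absurd h (hnoB i hi)⟩
    have := hnoA 0 (by omega)
    rwa [add_zero] at this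
  · obtain ⟨a, ha, b, hb, hab⟩ := hT.ex (r * k)
    have hor : a = r * k ∨ b = r * k := by
      by_contra hcon
      push Not at hcon
      exact hI ⟨a, ha, b, hb, by omega, by omega, 0, by omega, by omega⟩
    rcases hor with hak | hbk
    · -- the block starts in `A`
      rw [hak] at ha
      have hnoB : ∀ j, j < r → r * k + j ∉ B := by
        intro j hj hc
        rcases Nat.eq_zero_or_pos j with hj0 | hjpos
        · subst hj0
          have := (hT.un _ ha 0 h0B 0 h0A _ hc (by omega)).1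
          omega
        · have := (hT.un _ ha r hrB (r - j) (hsmall _ (by omega)) _ hc (by omega)).1
          omega
      have hall : ∀ j, j < r → r * k + j ∈ A := by
        intro j hj
        obtain ⟨a', ha', b', hb', hab'⟩ := hT.ex (r * k + j)
        rcases Nat.eq_zero_or_pos b' with hb0 | hbpos
        · have : a' = r * k + j := by omega
          rw [← this]; exact ha'
        · exfalso
          have hbr := hmin b' hb' hbpos
          have hblt : b' < r * k := by
            by_contra hcon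
            push Not at hcon
            obtain ⟨t, ht⟩ := Nat.exists_eq_add_of_le hcon
            rw [ht] at hb'
            exact hnoB t (by omega) hb'
          exact hI ⟨a', ha', b', hb', by omega, hblt, j, hj, hab'⟩
      exact ⟨⟨fun _ => ha, fun _ => hall i hi⟩, fun h => absurd h (hnoB i hi)⟩
    · rw [hbk] at hb
      have hnoA : ∀ j, j < r → r * k + j ∉ A := by
        intro j hj hc
        have := (hT.un _ hc 0 h0B j (hsmall j hj) _ hb (by omega)).2
        omega
      refine ⟨⟨fun h => absurd h (hnoA i hi), fun h => absurd h ?_⟩, fun h => ?_⟩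
      · have := hnoA 0 (by omega)
        rwa [add_zero] at this
      · have := (hT.un 0 h0A _ h i (hsmall i hi) _ hb (by omega)).1
        omega

/-- the block lemma for `C`, `D` -/
lemma block2 {A B C D : Set ℕ} (hT : T1 A B) (hU : T2 A B C D) {r : ℕ} (hr : 2 ≤ r) (hrB : r ∈ B)
    (hmin : ∀ b ∈ B, 0 < b → r ≤ b) :
    ∀ k i, i < r → (r * k + i ∈ C ↔ r * k ∈ C) ∧ (r * k + i ∈ D → i = 0) := by
  obtain ⟨h0A, h0B⟩ := hT.zero
  have hAB := block1 hT hr hrB hmin
  have hsmall : ∀ j, j < r → j ∈ A := by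
    intro j hj
    have := (hAB 0 j hj).1
    simp only [mul_zero, zero_add] at this
    exact this.2 h0A
  intro k
  induction k using Nat.strong_induction_on with
  | _ k ih =>
  intro i hi
  by_cases hI1 : ∃ c ∈ C, ∃ b ∈ B, c < r * k ∧ ∃ j, j < r ∧ c + b = r * k + j
  · obtain ⟨c, hc, b, hb, hclt, j, hj, hcb⟩ := hI1
    have hkc : c / r < k := by
      rw [Nat.div_lt_iff_lt_mul (by omega)]; rwa [mul_comm] at hclt
    have ec := Nat.div_add_mod c r
    have eb := Nat.div_add_mod b r
    have hmc : c % r < r := Nat.mod_lt _ (by omega)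
    have hmb : b % r < r := Nat.mod_lt _ (by omega)
    have hb0 : b % r = 0 := (hAB _ _ hmb).2 (by rw [eb]; exact hb)
    have hC1 : r * (c / r) ∈ C := (ih _ hkc _ hmc).1.1 (by rw [ec]; exact hc)
    have hB1 : r * (b / r) ∈ B := by
      have : r * (b / r) = b := by omega
      rw [this]; exact hb
    have hsum : c / r + b / r = k := by
      refine (euc hmc hj ?_).1
      rw [mul_add]
      omega
    have hcov : ∀ j, j < r → r * (c / r) + j ∈ C := fun j hj => (ih _ hkc j hj).1.2 hC1
    have hkk : r * k = r * (c / r) + r * (b / r) := by rw [← mul_add, hsum]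
    have hkb1 : 1 ≤ b / r := by omega
    have hrb : r ≤ r * (b / r) := Nat.le_mul_of_pos_right r hkb1
    have hnoC : ∀ j, j < r → r * k + j ∉ C := by
      intro j hj hcon
      have := (hU.unC _ hcon 0 h0B _ (hcov j hj) _ hB1 (by omega)).2
      omega
    have hnoD : ∀ j, j < r → r * k + j ∉ D := by
      intro j hj hcon
      exact hU.no _ (hcov j hj) _ hB1 0 h0A _ hcon (by omega)
    refine ⟨⟨fun h => absurd h (hnoC i hi), fun h => absurd h ?_⟩, fun h => absurd h (hnoD i hi)⟩
    have := hnoC 0 (by omega)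
    rwa [add_zero] at this
  by_cases hI2 : ∃ a ∈ A, ∃ d ∈ D, d < r * k ∧ ∃ j, j < r ∧ a + d = r * k + j
  · obtain ⟨a, ha, d, hd, hdlt, j, hj, had⟩ := hI2
    have hkd : d / r < k := by
      rw [Nat.div_lt_iff_lt_mul (by omega)]; rwa [mul_comm] at hdlt
    have ea := Nat.div_add_mod a r
    have ed := Nat.div_add_mod d r
    have hma : a % r < r := Nat.mod_lt _ (by omega)
    have hmd : d % r < r := Nat.mod_lt _ (by omega)
    have hd0 : d % r = 0 := (ih _ hkd _ hmd).2 (by rw [ed]; exact hd)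
    have hA1 : r * (a / r) ∈ A := (hAB _ _ hma).1.1 (by rw [ea]; exact ha)
    have hD1 : r * (d / r) ∈ D := by
      have : r * (d / r) = d := by omega
      rw [this]; exact hd
    have hsum : a / r + d / r = k := by
      refine (euc hma hj ?_).1
      rw [mul_add]
      omega
    have hcov : ∀ j, j < r → r * (a / r) + j ∈ A := fun j hj => (hAB _ j hj).1.2 hA1
    have hkk : r * k = r * (a / r) + r * (d / r) := by rw [← mul_add, hsum]
    have hka1 : 1 ≤ a / r := by omega
    have hra : r ≤ r * (a / r) := Nat.le_mul_of_pos_right r hka1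
    have hnoC : ∀ j, j < r → r * k + j ∉ C := by
      intro j hj hcon
      exact hU.no _ hcon 0 h0B _ (hcov j hj) _ hD1 (by omega)
    have hnoD : ∀ j, j < r → r * k + j ∉ D := by
      intro j hj hcon
      have := (hU.unA 0 h0A _ hcon _ (hcov j hj) _ hD1 (by omega)).1
      omega
    refine ⟨⟨fun h => absurd h (hnoC i hi), fun h => absurd h ?_⟩, fun h => absurd h (hnoD i hi)⟩
    have := hnoC 0 (by omega)
    rwa [add_zero] at this
  rcases hU.ex (r * k) with ⟨c, hc, b, hb, hcb⟩ | ⟨a, ha, d, hd, had⟩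
  · have hck : c = r * k := by
      by_contra hne
      exact hI1 ⟨c, hc, b, hb, by omega, 0, by omega, by omega⟩
    rw [hck] at hc
    have hnoD : ∀ j, j < r → r * k + j ∉ D := by
      intro j hj hcon
      rcases Nat.eq_zero_or_pos j with hj0 | hjpos
      · subst hj0
        exact hU.no _ hc 0 h0B 0 h0A _ hcon (by omega)
      · exact hU.no _ hc r hrB (r - j) (hsmall _ (by omega)) _ hcon (by omega)
    have hall : ∀ j, j < r → r * k + j ∈ C := by
      intro j hj
      rcases hU.ex (r * k + j) with ⟨c', hc', b', hb', hcb'⟩ | ⟨a', ha', d', hd', had'⟩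
      · have hge : r * k ≤ c' := by
          by_contra hcon
          exact hI1 ⟨c', hc', b', hb', by omega, j, hj, hcb'⟩
        have hb0 : b' = 0 := by
          by_contra hne
          have := hmin b' hb' (by omega)
          omega
        have : c' = r * k + j := by omega
        rw [← this]; exact hc'
      · exfalso
        have hge : r * k ≤ d' := by
          by_contra hcon
          exact hI2 ⟨a', ha', d', hd', by omega, j, hj, had'⟩
        obtain ⟨t, ht⟩ := Nat.exists_eq_add_of_le hge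
        rw [ht] at hd'
        exact hnoD t (by omega) hd'
    exact ⟨⟨fun _ => hc, fun _ => hall i hi⟩, fun h => absurd h (hnoD i hi)⟩
  · have hdk : d = r * k := by
      by_contra hne
      exact hI2 ⟨a, ha, d, hd, by omega, 0, by omega, by omega⟩
    rw [hdk] at hd
    have hnoC : ∀ j, j < r → r * k + j ∉ C := by
      intro j hj hcon
      exact hU.no _ hcon 0 h0B j (hsmall j hj) _ hd (by omega)
    refine ⟨⟨fun h => absurd h (hnoC i hi), fun h => absurd h ?_⟩, fun h => ?_⟩
    · have := hnoC 0 (by omega)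
      rwa [add_zero] at this
    · have := (hU.unA 0 h0A _ h i (hsmall i hi) _ hd (by omega)).1
      omega

/-- the scaled sets tile again -/
lemma scale1 {A B : Set ℕ} (hT : T1 A B) {r : ℕ} (hr : 2 ≤ r)
    (hAB : ∀ k i, i < r → (r * k + i ∈ A ↔ r * k ∈ A) ∧ (r * k + i ∈ B → i = 0)) :
    T1 {k | r * k ∈ A} {k | r * k ∈ B} := by
  have hBd : ∀ b ∈ B, r * (b / r) = b := by
    intro b hb
    have e := Nat.div_add_mod b r
    have := (hAB (b / r) (b % r) (Nat.mod_lt _ (by omega))).2 (by rw [e]; exact hb)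
    omega
  constructor
  · intro n
    obtain ⟨a, ha, b, hb, hab⟩ := hT.ex (r * n)
    have e1 := Nat.div_add_mod a r
    have e2 := hBd b hb
    have hm : a % r < r := Nat.mod_lt _ (by omega)
    have h1 : a / r + b / r = n ∧ a % r = 0 := by
      apply euc hm (by omega)
      rw [mul_add]
      omega
    have h2 : r * (a / r) = a := by omega
    refine ⟨a / r, ?_, b / r, ?_, h1.1⟩
    · show r * (a / r) ∈ A
      rw [h2]; exact ha
    · show r * (b / r) ∈ B
      rw [e2]; exact hb
  · intro a ha b hb a' ha' b' hb' he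
    have h1 : r * a + r * b = r * a' + r * b' := by rw [← mul_add, ← mul_add, he]
    have h2 := hT.un _ ha _ hb _ ha' _ hb' h1
    exact ⟨Nat.eq_of_mul_eq_mul_left (by omega) h2.1, Nat.eq_of_mul_eq_mul_left (by omega) h2.2⟩

lemma scale2 {A B C D : Set ℕ} (hU : T2 A B C D) {r : ℕ} (hr : 2 ≤ r)
    (hAB : ∀ k i, i < r → (r * k + i ∈ A ↔ r * k ∈ A) ∧ (r * k + i ∈ B → i = 0))
    (hCD : ∀ k i, i < r → (r * k + i ∈ C ↔ r * k ∈ C) ∧ (r * k + i ∈ D → i = 0)) :
    T2 {k | r * k ∈ A} {k | r * k ∈ B} {k | r * k ∈ C} {k | r * k ∈ D} := by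
  have hdv : ∀ (X Y : Set ℕ), (∀ k i, i < r → (r * k + i ∈ X ↔ r * k ∈ X) ∧
      (r * k + i ∈ Y → i = 0)) → ∀ b ∈ Y, r * (b / r) = b := by
    intro X Y h b hb
    have e := Nat.div_add_mod b r
    have := (h (b / r) (b % r) (Nat.mod_lt _ (by omega))).2 (by rw [e]; exact hb)
    omega
  have key : ∀ n x y : ℕ, x + y = r * n → r * (y / r) = y →
      r * (x / r) = x ∧ x / r + y / r = n := by
    intro n x y hxy e2
    have e1 := Nat.div_add_mod x r
    have hm : x % r < r := Nat.mod_lt _ (by omega)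
    have h1 : x / r + y / r = n ∧ x % r = 0 := by
      apply euc hm (by omega)
      rw [mul_add]
      omega
    exact ⟨by omega, h1.1⟩
  constructor
  · intro n
    rcases hU.ex (r * n) with ⟨c, hc, b, hb, hcb⟩ | ⟨a, ha, d, hd, had⟩
    · have e := hdv A B hAB b hb
      obtain ⟨h1, h2⟩ := key n c b hcb e
      left
      refine ⟨c / r, ?_, b / r, ?_, h2⟩
      · show r * (c / r) ∈ C
        rw [h1]; exact hc
      · show r * (b / r) ∈ B
        rw [e]; exact hb
    · have e := hdv C D hCD d hd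
      obtain ⟨h1, h2⟩ := key n a d had e
      right
      refine ⟨a / r, ?_, d / r, ?_, h2⟩
      · show r * (a / r) ∈ A
        rw [h1]; exact ha
      · show r * (d / r) ∈ D
        rw [e]; exact hd
  · intro a ha b hb a' ha' b' hb' he
    have h1 : r * a + r * b = r * a' + r * b' := by rw [← mul_add, ← mul_add, he]
    have h2 := hU.unC _ ha _ hb _ ha' _ hb' h1
    exact ⟨Nat.eq_of_mul_eq_mul_left (by omega) h2.1, Nat.eq_of_mul_eq_mul_left (by omega) h2.2⟩
  · intro a ha b hb a' ha' b' hb' he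
    have h1 : r * a + r * b = r * a' + r * b' := by rw [← mul_add, ← mul_add, he]
    have h2 := hU.unA _ ha _ hb _ ha' _ hb' h1
    exact ⟨Nat.eq_of_mul_eq_mul_left (by omega) h2.1, Nat.eq_of_mul_eq_mul_left (by omega) h2.2⟩
  · intro c hc b hb a ha d hd he
    have h1 : r * c + r * b = r * a + r * d := by rw [← mul_add, ← mul_add, he]
    exact hU.no _ hc _ hb _ ha _ hd h1

/-- transfer of the conclusion -/
lemma transfer {A B C D : Set ℕ} {r : ℕ} (hr : 2 ≤ r)
    (hAB : ∀ k i, i < r → (r * k + i ∈ A ↔ r * k ∈ A) ∧ (r * k + i ∈ B → i = 0))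
    (hCD : ∀ k i, i < r → (r * k + i ∈ C ↔ r * k ∈ C) ∧ (r * k + i ∈ D → i = 0)) :
    (∀ k, r * k ∈ A ↔ r * k ∈ C) → A = C := by
  intro h
  ext x
  have e := Nat.div_add_mod x r
  have hm : x % r < r := Nat.mod_lt _ (by omega)
  have h1 := (hAB (x / r) (x % r) hm).1
  have h2 := (hCD (x / r) (x % r) hm).1
  rw [e] at h1 h2
  rw [h1, h2]
  exact h _

lemma transfer0 {C D : Set ℕ} {r : ℕ} (hr : 2 ≤ r)
    (hCD : ∀ k i, i < r → (r * k + i ∈ C ↔ r * k ∈ C) ∧ (r * k + i ∈ D → i = 0)) :
    ((∀ k, r * k ∉ C) → C = ∅) ∧ ((∀ k, r * k ∉ D) → D = ∅) := by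
  constructor
  · intro h
    rw [Set.eq_empty_iff_forall_notMem]
    intro x hx
    have e := Nat.div_add_mod x r
    have hm : x % r < r := Nat.mod_lt _ (by omega)
    have h2 := (hCD (x / r) (x % r) hm).1
    rw [e] at h2
    exact h _ (h2.1 hx)
  · intro h
    rw [Set.eq_empty_iff_forall_notMem]
    intro x hx
    have e := Nat.div_add_mod x r
    have hm : x % r < r := Nat.mod_lt _ (by omega)
    have h2 := (hCD (x / r) (x % r) hm).2
    rw [e] at h2
    have h3 := h2 hx
    have : r * (x / r) = x := by omega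
    exact h _ (by rw [this]; exact hx)

lemma transferB {A B C D : Set ℕ} {r : ℕ} (hr : 2 ≤ r)
    (hAB : ∀ k i, i < r → (r * k + i ∈ A ↔ r * k ∈ A) ∧ (r * k + i ∈ B → i = 0))
    (hCD : ∀ k i, i < r → (r * k + i ∈ C ↔ r * k ∈ C) ∧ (r * k + i ∈ D → i = 0)) :
    (∀ k, r * k ∈ B ↔ r * k ∈ D) → B = D := by
  intro h
  have hd : ∀ (X Y : Set ℕ), (∀ k i, i < r → (r * k + i ∈ X ↔ r * k ∈ X) ∧
      (r * k + i ∈ Y → i = 0)) → ∀ b ∈ Y, r * (b / r) = b := by
    intro X Y h b hb
    have e := Nat.div_add_mod b r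
    have := (h (b / r) (b % r) (Nat.mod_lt _ (by omega))).2 (by rw [e]; exact hb)
    omega
  ext x
  constructor
  · intro hx
    have e := hd A B hAB x hx
    rw [← e]
    exact (h _).1 (by rw [e]; exact hx)
  · intro hx
    have e := hd C D hCD x hx
    rw [← e]
    exact (h _).2 (by rw [e]; exact hx)

lemma main1 : ∀ (n₀ : ℕ) (A B C D : Set ℕ), n₀ ∈ A → (∀ a ∈ A, a ≤ n₀) → (∀ c ∈ C, c ≤ n₀) →
    T1 A B → T2 A B C D → (C = A ∧ D = ∅) ∨ (C = ∅ ∧ D = B) := by
  intro n₀
  induction n₀ using Nat.strong_induction_on with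
  | _ n₀ ih =>
  intro A B C D hnA hA hC hT hU
  obtain ⟨h0A, h0B⟩ := hT.zero
  rcases Nat.eq_zero_or_pos n₀ with hn0 | hnpos
  · subst hn0
    have hBall : ∀ n, n ∈ B := by
      intro n
      obtain ⟨a, ha, b, hb, hab⟩ := hT.ex n
      have := hA a ha
      have : b = n := by omega
      rw [← this]; exact hb
    by_cases h0C : 0 ∈ C
    · left
      constructor
      · ext x
        constructor
        · intro hx
          have := hC x hx
          have : x = 0 := by omega
          rw [this]; exact h0A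
        · intro hx
          have := hA x hx
          have : x = 0 := by omega
          rw [this]; exact h0C
      · rw [Set.eq_empty_iff_forall_notMem]
        intro d hd
        exact hU.no 0 h0C d (hBall d) 0 h0A d hd rfl
    · right
      have hCe : C = ∅ := by
        rw [Set.eq_empty_iff_forall_notMem]
        intro x hx
        have := hC x hx
        have : x = 0 := by omega
        rw [this] at hx
        exact h0C hx
      refine ⟨hCe, ?_⟩
      ext x
      constructor
      · intro _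
        exact hBall x
      · intro _
        rcases hU.ex x with ⟨c, hc, b, hb, hcb⟩ | ⟨a, ha, d, hd, had⟩
        · rw [hCe] at hc
          exact absurd hc (Set.notMem_empty _)
        · have := hA a ha
          have : d = x := by omega
          rw [← this]; exact hd
  obtain ⟨a1, ha1, b1, hb1, hab1⟩ := hT.ex 1
  have hcase : (1 ∈ A ∧ 1 ∉ B) ∨ (1 ∈ B ∧ 1 ∉ A) := by
    have hnot : ¬ (1 ∈ A ∧ 1 ∈ B) := by
      rintro ⟨h1, h2⟩
      have := (hT.un 1 h1 0 h0B 0 h0A 1 h2 (by omega)).1
      omega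
    rcases Nat.eq_zero_or_pos b1 with hb0 | hbp
    · have : a1 = 1 := by omega
      rw [this] at ha1
      exact Or.inl ⟨ha1, fun h => hnot ⟨ha1, h⟩⟩
    · have : b1 = 1 := by omega
      rw [this] at hb1
      exact Or.inr ⟨hb1, fun h => hnot ⟨h, hb1⟩⟩
  have hleast : ∀ (X : Set ℕ), (∃ x ∈ X, 0 < x) → 1 ∉ X → ∃ r, 2 ≤ r ∧ r ∈ X ∧
      ∀ b ∈ X, 0 < b → r ≤ b := by
    intro X hX h1
    classical
    obtain ⟨x, hx, hxp⟩ := hX
    have hex : ∃ n, n ∈ X ∧ 0 < n := ⟨x, hx, hxp⟩
    refine ⟨Nat.find hex, ?_, (Nat.find_spec hex).1, fun b hb hbp => Nat.find_min' hex ⟨hb, hbp⟩⟩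
    have h2 := Nat.find_spec hex
    have h3 : Nat.find hex ≠ 1 := fun h => h1 (h ▸ h2.1)
    omega
  rcases hcase with ⟨h1A, h1B⟩ | ⟨h1B, h1A⟩
  · have hBpos : ∃ x ∈ B, 0 < x := by
      obtain ⟨a, ha, b, hb, hab⟩ := hT.ex (n₀ + 1)
      have := hA a ha
      exact ⟨b, hb, by omega⟩
    obtain ⟨r, hr, hrB, hmin⟩ := hleast B hBpos h1B
    have hAB := block1 hT hr hrB hmin
    have hCD := block2 hT hU hr hrB hmin
    have hlt : n₀ / r < n₀ := Nat.div_lt_self hnpos (by omega)
    have hle : ∀ (X : Set ℕ), (∀ x ∈ X, x ≤ n₀) → ∀ k ∈ {k | r * k ∈ X}, k ≤ n₀ / r := by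
      intro X hX k hk
      have := hX _ hk
      rw [Nat.le_div_iff_mul_le (by omega)]
      rw [mul_comm]; exact this
    have hmem : n₀ / r ∈ {k | r * k ∈ A} := by
      have e := Nat.div_add_mod n₀ r
      have h2 := (hAB (n₀ / r) (n₀ % r) (Nat.mod_lt _ (by omega))).1
      rw [e] at h2
      exact h2.1 hnA
    rcases ih _ hlt {k | r * k ∈ A} {k | r * k ∈ B} {k | r * k ∈ C} {k | r * k ∈ D} hmem
      (hle A hA) (hle C hC) (scale1 hT hr hAB) (scale2 hU hr hAB hCD) with ⟨h2, h3⟩ | ⟨h2, h3⟩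
    · left
      constructor
      · apply transfer hr hCD hAB
        intro k
        exact Set.ext_iff.1 h2 k
      · apply (transfer0 hr hCD).2
        intro k hk
        have : k ∈ {k | r * k ∈ D} := hk
        rw [h3] at this
        exact this
    · right
      constructor
      · apply (transfer0 hr hCD).1
        intro k hk
        have : k ∈ {k | r * k ∈ C} := hk
        rw [h2] at this
        exact this
      · apply transferB hr hCD hAB
        intro k
        exact Set.ext_iff.1 h3 k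
  · obtain ⟨r, hr, hrA, hmin⟩ := hleast A ⟨n₀, hnA, hnpos⟩ h1A
    have hBA := block1 hT.symm hr hrA hmin
    have hDC := block2 hT.symm hU.symm hr hrA hmin
    have hlt : n₀ / r < n₀ := Nat.div_lt_self hnpos (by omega)
    have hle : ∀ (X : Set ℕ), (∀ x ∈ X, x ≤ n₀) → ∀ k ∈ {k | r * k ∈ X}, k ≤ n₀ / r := by
      intro X hX k hk
      have := hX _ hk
      rw [Nat.le_div_iff_mul_le (by omega)]
      rw [mul_comm]; exact this
    have hmem : n₀ / r ∈ {k | r * k ∈ A} := by
      have e := Nat.div_add_mod n₀ r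
      have h2 := (hBA (n₀ / r) (n₀ % r) (Nat.mod_lt _ (by omega))).2
      rw [e] at h2
      have h3 := h2 hnA
      show r * (n₀ / r) ∈ A
      have : r * (n₀ / r) = n₀ := by omega
      rw [this]; exact hnA
    rcases ih _ hlt {k | r * k ∈ A} {k | r * k ∈ B} {k | r * k ∈ C} {k | r * k ∈ D} hmem
      (hle A hA) (hle C hC) (scale1 hT.symm hr hBA).symm (scale2 hU.symm hr hBA hDC).symm
      with ⟨h2, h3⟩ | ⟨h2, h3⟩
    · left
      constructor
      · apply transferB hr hDC hBA
        intro k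
        exact Set.ext_iff.1 h2 k
      · apply (transfer0 hr hDC).1
        intro k hk
        have : k ∈ {k | r * k ∈ D} := hk
        rw [h3] at this
        exact this
    · right
      constructor
      · apply (transfer0 hr hDC).2
        intro k hk
        have : k ∈ {k | r * k ∈ C} := hk
        rw [h2] at this
        exact this
      · apply transfer hr hDC hBA
        intro k
        exact Set.ext_iff.1 h3 k

theorem t_NIV1 : S_NIV1 := by
  intro A B C D n₀ hnA hA hC hT hU
  apply main1 n₀ A B C D hnA hA hC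
  · constructor
    · intro n
      obtain ⟨⟨a, b⟩, ⟨h1, h2, h3⟩, -⟩ := hT n
      exact ⟨a, h1, b, h2, h3⟩
    · intro a ha b hb a' ha' b' hb' he
      obtain ⟨x, -, hx⟩ := hT (a' + b')
      have h1 := hx (a, b) ⟨ha, hb, he⟩
      have h2 := hx (a', b') ⟨ha', hb', rfl⟩
      have h3 : (a, b) = (a', b') := h1.trans h2.symm
      exact ⟨congrArg Prod.fst h3, congrArg Prod.snd h3⟩
  · have huniq : ∀ x y : ℕ × ℕ × Bool, x.1 + x.2.1 = y.1 + y.2.1 →
        (if x.2.2 = true then x.1 ∈ C ∧ x.2.1 ∈ B else x.1 ∈ A ∧ x.2.1 ∈ D) →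
        (if y.2.2 = true then y.1 ∈ C ∧ y.2.1 ∈ B else y.1 ∈ A ∧ y.2.1 ∈ D) → x = y := by
      intro x y hxy hx hy
      obtain ⟨z, -, hz⟩ := hU (y.1 + y.2.1)
      exact (hz x ⟨hxy, hx⟩).trans (hz y ⟨rfl, hy⟩).symm
    constructor
    · intro n
      obtain ⟨⟨x, y, s⟩, ⟨h1, h2⟩, -⟩ := hU n
      cases s
      · simp only [Bool.false_eq_true, if_false] at h1 h2
        exact Or.inr ⟨x, h2.1, y, h2.2, h1⟩
      · simp only [if_true] at h1 h2
        exact Or.inl ⟨x, h2.1, y, h2.2, h1⟩
    · intro c hc b hb c' hc' b' hb' he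
      have h := huniq (c, b, true) (c', b', true) he ⟨hc, hb⟩ ⟨hc', hb'⟩
      exact ⟨congrArg (fun x => x.1) h, congrArg (fun x => x.2.1) h⟩
    · intro a ha d hd a' ha' d' hd' he
      have h := huniq (a, d, false) (a', d', false) he
        (by simpa using ⟨ha, hd⟩) (by simpa using ⟨ha', hd'⟩)
      exact ⟨congrArg (fun x => x.1) h, congrArg (fun x => x.2.1) h⟩
    · intro c hc b hb a ha d hd he
      have h := huniq (c, b, true) (a, d, false) he ⟨hc, hb⟩ (by simpa using ⟨ha, hd⟩)
      have h2 : true = false := congrArg (fun x => x.2.2) h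
      exact absurd h2 (by decide)

end Pool.Agent.Q154.PA
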