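import Pool.Agent.Q15.PA.Stm

/-!
# Project PA, job PA-ONE: the maximizers are unique
-/

set_option autoImplicit false

namespace Pool.Agent.Q154.PA

open Pool.Agent.Q15.PA

open Classical in
/-- the maximizers of `l` on `F` -/
noncomputable def mx {d : ℕ} (F : Finset (V d)) (l : V d) : Finset (V d) :=
  F.filter (fun v => ∀ v' ∈ F, l ⬝ᵥ v' ≤ l ⬝ᵥ v)

lemma mem_mx {d : ℕ} {F : Finset (V d)} {l v : V d} :
    v ∈ mx F l ↔ v ∈ F ∧ ∀ v' ∈ F, l ⬝ᵥ v' ≤ l ⬝ᵥ v := by
  classical
  unfold mx
  rw [Finset.mem_filter]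

lemma mx_nonempty {d : ℕ} {F : Finset (V d)} (hF : F.Nonempty) (l : V d) : (mx F l).Nonempty := by
  obtain ⟨v, hv, hmax⟩ := F.exists_max_image (fun v => l ⬝ᵥ v) hF
  exact ⟨v, mem_mx.2 ⟨hv, hmax⟩⟩

lemma umax_of_card {d : ℕ} {F : Finset (V d)} {l : V d} (h : (mx F l).card = 1) :
    ∃ v, UMax F l v := by
  obtain ⟨v, hv⟩ := Finset.card_eq_one.1 h
  have hvm : v ∈ mx F l := by rw [hv]; exact Finset.mem_singleton_self v
  obtain ⟨h1, h2⟩ := mem_mx.1 hvm
  refine ⟨v, h1, fun v' hv' hne => ?_⟩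
  refine lt_of_le_of_ne (h2 v' hv') (fun he => hne ?_)
  have : v' ∈ mx F l := mem_mx.2 ⟨hv', fun w hw => (h2 w hw).trans he.ge⟩
  rw [hv] at this
  exact Finset.mem_singleton.1 this

/-- coordinatewise multiplication -/
def mu {d : ℕ} (μ v : V d) : V d := fun i => μ i * v i

lemma dot_mu {d : ℕ} (μ l v : V d) : (mu μ l) ⬝ᵥ v = l ⬝ᵥ (mu μ v) := by
  unfold mu dotProduct
  apply Finset.sum_congr rfl
  intro i _
  ring

lemma mu_inj {d : ℕ} {μ : V d} (hμ : ∀ i, 1 < μ i) : Function.Injective (mu μ) := by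
  intro x y h
  funext i
  have := congrFun h i
  exact mul_left_cancel₀ (by linarith [hμ i]) this

lemma div_mu {d : ℕ} {μ : V d} (hμ : ∀ i, 1 < μ i) (v : V d) :
    (fun i => (mu μ v) i / μ i) = v := by
  funext i
  unfold mu
  have : μ i ≠ 0 := by linarith [hμ i]
  field_simp

lemma keyA (hS : S_SGN) {d : ℕ} (N : V d →₀ ℝ) (S : Finset (V d)) (μ : V d) (hG : Good N)
    (hE : Eqn N S μ) (l : V d) (hl : ∀ i, l i ≠ 0) :
    (mx S l).card * (mx N.support l).card = (mx N.support (mu μ l)).card ∧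
    ∀ v ∈ mx N.support (mu μ l), ∃ s ∈ mx S l, mu μ v - s ∈ mx N.support l := by
  classical
  obtain ⟨hSne, hμ, hEq⟩ := hE
  have hFne : N.support.Nonempty := by
    rw [Finset.nonempty_iff_ne_empty, Ne, Finsupp.support_eq_empty]
    exact hG.1
  set F := N.support with hF
  obtain ⟨v₀, hv₀⟩ := mx_nonempty hFne l
  obtain ⟨s₀, hs₀⟩ := mx_nonempty hSne l
  obtain ⟨hv₀F, hv₀m⟩ := mem_mx.1 hv₀
  obtain ⟨hs₀S, hs₀m⟩ := mem_mx.1 hs₀
  set c : ℝ := l ⬝ᵥ v₀ + l ⬝ᵥ s₀ with hc
  have fact1 : ∀ v ∈ F, ∀ s ∈ S, (l ⬝ᵥ (v + s) = c ↔ v ∈ mx F l ∧ s ∈ mx S l) := by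
    intro v hv s hs
    rw [dotProduct_add]
    have h1 := hv₀m v hv
    have h2 := hs₀m s hs
    constructor
    · intro h
      have e1 : l ⬝ᵥ v = l ⬝ᵥ v₀ := by linarith
      have e2 : l ⬝ᵥ s = l ⬝ᵥ s₀ := by linarith
      exact ⟨mem_mx.2 ⟨hv, fun w hw => by rw [e1]; exact hv₀m w hw⟩,
        mem_mx.2 ⟨hs, fun w hw => by rw [e2]; exact hs₀m w hw⟩⟩
    · rintro ⟨h3, h4⟩
      have h5 := (mem_mx.1 h3).2 v₀ hv₀F
      have h6 := (mem_mx.1 h4).2 s₀ hs₀S
      linarith
  have factle : ∀ v ∈ F, ∀ s ∈ S, l ⬝ᵥ (v + s) ≤ c := by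
    intro v hv s hs
    rw [dotProduct_add]
    have h1 := hv₀m v hv
    have h2 := hs₀m s hs
    linarith
  have fact2 : ∀ v ∈ F, ∃ s ∈ S, mu μ v - s ∈ F := by
    intro v hv
    have h1 := hEq (mu μ v)
    rw [div_mu hμ] at h1
    have h2 : ∑ s ∈ S, N (mu μ v - s) ≠ 0 := by
      rw [h1]; exact Finsupp.mem_support_iff.1 hv
    obtain ⟨s, hs, hne⟩ := Finset.exists_ne_zero_of_sum_ne_zero h2
    exact ⟨s, hs, Finsupp.mem_support_iff.2 hne⟩
  have fact3 : ∀ v ∈ F, l ⬝ᵥ (mu μ v) ≤ c := by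
    intro v hv
    obtain ⟨s, hs, hF'⟩ := fact2 v hv
    have := factle _ hF' s hs
    rwa [sub_add_cancel] at this
  have fact4 : ∀ v ∈ F, l ⬝ᵥ (mu μ v) = c → ∃ s ∈ mx S l, mu μ v - s ∈ mx F l := by
    intro v hv hvc
    obtain ⟨s, hs, hF'⟩ := fact2 v hv
    have h1 := (fact1 _ hF' s hs).1 (by rw [sub_add_cancel]; exact hvc)
    exact ⟨s, h1.2, h1.1⟩
  -- the finite set of relevant points
  set W : Finset (V d) := (F ×ˢ S).image (fun p => p.1 + p.2) ∪ F.image (mu μ) with hW
  set Wc : Finset (V d) := W.filter (fun w => l ⬝ᵥ w = c) with hWc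
  set ε : ℝ := (-1) ^ (Finset.univ.filter (fun i => 0 < l i)).card with hε
  have hεne : ε ≠ 0 := pow_ne_zero _ (by norm_num)
  have hlhs : ∑ w ∈ Wc, ∑ s ∈ S, N (w - s) = ((mx S l).card * (mx F l).card : ℝ) * ε := by
    rw [Finset.sum_comm]
    have h1 : ∀ s ∈ S, ∑ w ∈ Wc, N (w - s) = if s ∈ mx S l then ((mx F l).card : ℝ) * ε else 0 := by
      intro s hs
      have h2 : ∑ w ∈ Wc, N (w - s) =
          ∑ w ∈ (F.filter (fun v => l ⬝ᵥ (v + s) = c)).image (fun v => v + s), N (w - s) := by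
        symm
        apply Finset.sum_subset
        · intro w hw
          obtain ⟨v, hv, rfl⟩ := Finset.mem_image.1 hw
          obtain ⟨hvF, hvc⟩ := Finset.mem_filter.1 hv
          refine Finset.mem_filter.2 ⟨Finset.mem_union_left _ ?_, hvc⟩
          exact Finset.mem_image.2 ⟨(v, s), Finset.mem_product.2 ⟨hvF, hs⟩, rfl⟩
        · intro w hw hn
          by_contra hne
          apply hn
          refine Finset.mem_image.2 ⟨w - s, Finset.mem_filter.2 ⟨?_, ?_⟩, sub_add_cancel w s⟩
          · exact Finsupp.mem_support_iff.2 hne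
          · rw [sub_add_cancel]; exact (Finset.mem_filter.1 hw).2
      rw [h2, Finset.sum_image (fun x _ y _ h => add_right_cancel h)]
      simp only [add_sub_cancel_right]
      by_cases hsm : s ∈ mx S l
      · rw [if_pos hsm]
        have h3 : F.filter (fun v => l ⬝ᵥ (v + s) = c) = mx F l := by
          ext v
          rw [Finset.mem_filter]
          constructor
          · rintro ⟨h4, h5⟩
            exact ((fact1 v h4 s hs).1 h5).1
          · intro h4
            have h5 := (mem_mx.1 h4).1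
            exact ⟨h5, (fact1 v h5 s hs).2 ⟨h4, hsm⟩⟩
        rw [h3, Finset.sum_congr rfl (g := fun _ => ε), Finset.sum_const, nsmul_eq_mul]
        intro v hv
        exact hS d N hG l hl v (mem_mx.1 hv).1 (mem_mx.1 hv).2
      · rw [if_neg hsm]
        have h3 : F.filter (fun v => l ⬝ᵥ (v + s) = c) = ∅ := by
          rw [Finset.filter_eq_empty_iff]
          intro v hv h4
          exact hsm ((fact1 v hv s hs).1 h4).2
        rw [h3, Finset.sum_empty]
    rw [Finset.sum_congr rfl h1, Finset.sum_ite_mem]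
    have h5 : S ∩ mx S l = mx S l := by
      apply Finset.inter_eq_right.2
      intro s hs
      exact (mem_mx.1 hs).1
    rw [h5, Finset.sum_const, nsmul_eq_mul]
    ring
  have hrhs : ∑ w ∈ Wc, N (fun i => w i / μ i) =
      ∑ v ∈ F.filter (fun v => l ⬝ᵥ (mu μ v) = c), N v := by
    have h2 : ∑ w ∈ Wc, N (fun i => w i / μ i) =
        ∑ w ∈ (F.filter (fun v => l ⬝ᵥ (mu μ v) = c)).image (mu μ), N (fun i => w i / μ i) := by
      symm
      apply Finset.sum_subset
      · intro w hw
        obtain ⟨v, hv, rfl⟩ := Finset.mem_image.1 hw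
        obtain ⟨hvF, hvc⟩ := Finset.mem_filter.1 hv
        exact Finset.mem_filter.2 ⟨Finset.mem_union_right _ (Finset.mem_image_of_mem _ hvF), hvc⟩
      · intro w hw hn
        by_contra hne
        apply hn
        have hmu : mu μ (fun i => w i / μ i) = w := by
          funext i
          unfold mu
          have : μ i ≠ 0 := by linarith [hμ i]
          field_simp
        refine Finset.mem_image.2 ⟨fun i => w i / μ i, Finset.mem_filter.2 ⟨?_, ?_⟩, hmu⟩
        · exact Finsupp.mem_support_iff.2 hne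
        · rw [hmu]; exact (Finset.mem_filter.1 hw).2
    rw [h2, Finset.sum_image (fun x _ y _ h => mu_inj hμ h)]
    apply Finset.sum_congr rfl
    intro v _
    rw [div_mu hμ]
  have heq : ((mx S l).card * (mx F l).card : ℝ) * ε =
      ∑ v ∈ F.filter (fun v => l ⬝ᵥ (mu μ v) = c), N v := by
    rw [← hlhs, ← hrhs]
    exact Finset.sum_congr rfl (fun w _ => hEq w)
  have hexv : ∃ v₁ ∈ F, l ⬝ᵥ (mu μ v₁) = c := by
    by_contra hcon
    push Not at hcon
    have h3 : F.filter (fun v => l ⬝ᵥ (mu μ v) = c) = ∅ := by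
      rw [Finset.filter_eq_empty_iff]
      intro v hv h4
      exact hcon v hv h4
    rw [h3, Finset.sum_empty] at heq
    have c1 : (0 : ℝ) < (mx S l).card := by
      exact_mod_cast (mx_nonempty hSne l).card_pos
    have c2 : (0 : ℝ) < (mx F l).card := by
      exact_mod_cast (mx_nonempty hFne l).card_pos
    exact (mul_ne_zero (mul_pos c1 c2).ne' hεne) heq
  obtain ⟨v₁, hv₁F, hv₁c⟩ := hexv
  have hmx : F.filter (fun v => l ⬝ᵥ (mu μ v) = c) = mx F (mu μ l) := by
    ext v
    rw [Finset.mem_filter, mem_mx]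
    constructor
    · rintro ⟨h1, h2⟩
      refine ⟨h1, fun v' hv' => ?_⟩
      rw [dot_mu, dot_mu, h2]
      exact fact3 v' hv'
    · rintro ⟨h1, h2⟩
      refine ⟨h1, le_antisymm (fact3 v h1) ?_⟩
      have := h2 v₁ hv₁F
      rw [dot_mu, dot_mu, hv₁c] at this
      exact this
  constructor
  · rw [hmx] at heq
    have h4 : ∑ v ∈ mx F (mu μ l), N v = ((mx F (mu μ l)).card : ℝ) * ε := by
      rw [Finset.sum_congr rfl (g := fun _ => ε), Finset.sum_const, nsmul_eq_mul]
      intro v hv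
      have h5 := hS d N hG (mu μ l) (fun i => mul_ne_zero (by linarith [hμ i]) (hl i)) v
        (mem_mx.1 hv).1 (mem_mx.1 hv).2
      rw [h5, hε]
      congr 2
      ext i
      simp only [Finset.mem_filter, Finset.mem_univ, true_and]
      have hμi : 0 < μ i := by linarith [hμ i]
      have hmi : mu μ l i = μ i * l i := rfl
      rw [hmi]
      constructor
      · intro h
        exact (pos_iff_pos_of_mul_pos h).1 hμi
      · intro h
        exact mul_pos hμi h
    rw [h4] at heq
    have h6 := mul_right_cancel₀ hεne heq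
    exact_mod_cast h6
  · intro v hv
    rw [← hmx, Finset.mem_filter] at hv
    exact fact4 v hv.1 hv.2

lemma iter_card (hS : S_SGN) {d : ℕ} (N : V d →₀ ℝ) (S : Finset (V d)) (μ : V d) (hG : Good N)
    (hE : Eqn N S μ) (l : V d) (hl : ∀ i, l i ≠ 0) : (mx N.support l).card = 1 := by
  classical
  have hμ := hE.2.1
  have hSne := hE.1
  have hFne : N.support.Nonempty := by
    rw [Finset.nonempty_iff_ne_empty, Ne, Finsupp.support_eq_empty]
    exact hG.1
  set F := N.support with hF
  set L : ℕ → V d := fun n i => μ i ^ n * l i with hL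
  have hLs : ∀ n, L (n + 1) = mu μ (L n) := by
    intro n
    funext i
    simp only [hL, mu]
    ring
  have hLne : ∀ n i, L n i ≠ 0 := by
    intro n i
    exact mul_ne_zero (pow_ne_zero _ (by linarith [hμ i])) (hl i)
  have hA := fun n => keyA hS N S μ hG hE (L n) (hLne n)
  set f : ℕ → ℕ := fun n => (mx F (L n)).card with hf
  have hfpos : ∀ n, 1 ≤ f n := fun n => (mx_nonempty hFne (L n)).card_pos
  have hSpos : ∀ n, 1 ≤ (mx S (L n)).card := fun n => (mx_nonempty hSne (L n)).card_pos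
  have hstep : ∀ n, (mx S (L n)).card * f n = f (n + 1) := by
    intro n
    simp only [hf]
    rw [hLs n]
    exact (hA n).1
  have hmono : Monotone f := by
    apply monotone_nat_of_le_succ
    intro n
    rw [← hstep n]
    exact Nat.le_mul_of_pos_left _ (hSpos n)
  have hbd : ∀ n, f n ≤ F.card := by
    intro n
    apply Finset.card_le_card
    intro v hv
    exact (mem_mx.1 hv).1
  obtain ⟨n₀, hn₀⟩ : ∃ n₀, ∀ n, f n ≤ f n₀ := by
    have h1 : sInf (Set.range (fun n => F.card - f n)) ∈ Set.range (fun n => F.card - f n) :=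
      Nat.sInf_mem ⟨_, 0, rfl⟩
    obtain ⟨n₀, h2⟩ := h1
    refine ⟨n₀, fun n => ?_⟩
    have h3 : sInf (Set.range (fun n => F.card - f n)) ≤ F.card - f n := Nat.sInf_le ⟨n, rfl⟩
    simp only at h2
    have h4 := hbd n
    have h5 := hbd n₀
    omega
  have hconst : ∀ n, n₀ ≤ n → f n = f n₀ := fun n hn => le_antisymm (hn₀ n) (hmono hn)
  have hS1 : ∀ n, n₀ ≤ n → (mx S (L n)).card = 1 := by
    intro n hn
    have h1 := hstep n
    rw [hconst n hn, hconst (n + 1) (by omega)] at h1
    have h2 := hfpos n₀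
    exact Nat.eq_of_mul_eq_mul_right (by omega : 0 < f n₀) (by rw [one_mul]; exact h1)
  have hone : f n₀ = 1 := by
    by_contra hne
    have h2 : 1 < (mx F (L n₀)).card := by
      have := hfpos n₀
      simp only [hf] at this hne
      omega
    obtain ⟨v, hv, v', hv', hvv⟩ := Finset.one_lt_card.1 h2
    have hdiff : ∀ m, ∃ x ∈ mx F (L (n₀ + m)), ∃ y ∈ mx F (L (n₀ + m)),
        ∀ i, x i - y i = (v i - v' i) / μ i ^ m := by
      intro m
      induction m with
      | zero => exact ⟨v, hv, v', hv', fun i => by simp⟩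
      | succ m ih =>
        obtain ⟨x, hx, y, hy, hxy⟩ := ih
        obtain ⟨s, hs⟩ := Finset.card_eq_one.1 (hS1 (n₀ + m) (by omega))
        have hmap : ∀ z ∈ mx F (L (n₀ + m + 1)), mu μ z - s ∈ mx F (L (n₀ + m)) := by
          intro z hz
          rw [hLs] at hz
          obtain ⟨s', hs', hz'⟩ := (hA (n₀ + m)).2 z hz
          rw [hs] at hs'
          rw [Finset.mem_singleton.1 hs'] at hz'
          exact hz'
        have hinj : Set.InjOn (fun z : V d => mu μ z - s) (mx F (L (n₀ + m + 1))) := by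
          intro a _ b _ hab
          exact mu_inj hμ (sub_left_injective hab)
        have hcard : (mx F (L (n₀ + m))).card ≤ (mx F (L (n₀ + m + 1))).card :=
          hmono (by omega : n₀ + m ≤ n₀ + m + 1)
        have hsurj := Finset.surjOn_of_injOn_of_card_le (fun z : V d => mu μ z - s)
          (fun z hz => Finset.mem_coe.2 (hmap z (Finset.mem_coe.1 hz))) hinj hcard
        obtain ⟨a, ha, hax⟩ := hsurj (Finset.mem_coe.2 hx)
        obtain ⟨b, hb, hby⟩ := hsurj (Finset.mem_coe.2 hy)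
        refine ⟨a, Finset.mem_coe.1 ha, b, Finset.mem_coe.1 hb, fun i => ?_⟩
        have h3 := congrFun hax i
        have h4 := congrFun hby i
        simp only [mu, Pi.sub_apply] at h3 h4
        have h5 := hxy i
        have hμi : μ i ≠ 0 := by linarith [hμ i]
        have h6 : μ i * (a i - b i) = (v i - v' i) / μ i ^ m := by
          rw [← h5]; linarith
        rw [pow_succ]
        field_simp
        field_simp at h6
        linarith
    obtain ⟨i, hi⟩ : ∃ i, v i ≠ v' i := by
      by_contra hcon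
      push Not at hcon
      exact hvv (funext hcon)
    have hfin : (Set.range (fun m : ℕ => (v i - v' i) / μ i ^ m)).Finite := by
      apply Set.Finite.subset ((F ×ˢ F).image (fun p => p.1 i - p.2 i)).finite_toSet
      rintro _ ⟨m, rfl⟩
      obtain ⟨x, hx, y, hy, hxy⟩ := hdiff m
      simp only [Finset.coe_image, Set.mem_image, Finset.mem_coe, Finset.mem_product]
      exact ⟨(x, y), ⟨(mem_mx.1 hx).1, (mem_mx.1 hy).1⟩, hxy i⟩
    have hinf : (Set.range (fun m : ℕ => (v i - v' i) / μ i ^ m)).Infinite := by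
      apply Set.infinite_range_of_injective
      intro m m' hmm
      simp only at hmm
      have h3 : v i - v' i ≠ 0 := sub_ne_zero.2 hi
      have h4 : μ i ^ m ≠ 0 := pow_ne_zero _ (by linarith [hμ i])
      have h5 : μ i ^ m' ≠ 0 := pow_ne_zero _ (by linarith [hμ i])
      rw [div_eq_div_iff h4 h5] at hmm
      have h6 := mul_left_cancel₀ h3 hmm
      exact (pow_right_injective₀ (by linarith [hμ i]) (by linarith [hμ i]) h6.symm)
    exact hinf hfin
  have h0 : L 0 = l := by
    funext i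
    simp [hL]
  have h1 : f 0 ≤ 1 := by rw [← hone]; exact hn₀ 0
  have h2 := hfpos 0
  have h3 : f 0 = 1 := by omega
  simp only [hf] at h3
  rw [h0] at h3
  exact h3

theorem t_ONE : S_ONE := by
  intro hS d N S μ hG hE
  have h1 := iter_card hS N S μ hG hE
  constructor
  · intro l hl
    exact umax_of_card (h1 l hl)
  · intro l hl
    apply umax_of_card
    have h2 := (keyA hS N S μ hG hE l hl).1
    rw [h1 l hl, h1 (mu μ l) (fun i => mul_ne_zero (by linarith [hE.2.1 i]) (hl i))] at h2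
    omega

end Pool.Agent.Q154.PA
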