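import Pool.Agent.Q15.PA.Stm

/-!
# Project PA, job PA-PR: the product structure
-/

set_option autoImplicit false

namespace Pool.Agent.Q154.PA

open Pool.Agent.Q15.PA

theorem t_PR : S_PR := by
  classical
  intro hSGN hONE hCOR hNAT hHOM hID hTILE hNIV1 hNIV d N S μ hG hE
  obtain ⟨h1, h2⟩ := hONE hSGN d N S μ hG hE
  obtain ⟨lo, hi, hc⟩ := hCOR d N.support h1
  obtain ⟨lo', hi', hc'⟩ := hCOR d S h2
  obtain ⟨N', T', m, κ, hZ, hcum, hbd⟩ := hID hNAT hHOM d N S μ lo hi lo' hi' hG hE hc hc'
  obtain ⟨B, hB⟩ := hTILE d N' T' m hZ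
  have hP := hNIV hNIV1 d {a | cumZ N' a = 1} B hB hbd
  refine ⟨fun i => {t | lo i ≤ t ∧ cumZ N' (Finsupp.single i (κ i t)) = 1}, fun x => ?_⟩
  by_cases hx : lo ≤ x
  · rw [hcum x hx]
    constructor
    · intro h i
      have h3 := (hP (Finsupp.equivFunOnFinite.symm (fun i => κ i (x i)))).1 h i
      exact ⟨hx i, h3⟩
    · intro h
      apply (hP (Finsupp.equivFunOnFinite.symm (fun i => κ i (x i)))).2
      intro i
      exact (h i).2
  · have h0 : cum N x = 0 := by
      unfold cum
      apply Finset.sum_eq_zero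
      intro v hv
      have hlv := (hc.1 v hv).1
      have : ¬ v ≤ x := fun hvx => hx (hlv.trans hvx)
      simp [this]
    rw [h0]
    constructor
    · intro h
      exact absurd h (by norm_num)
    · intro h
      exact absurd (fun i => (h i).1) hx

end Pool.Agent.Q154.PA
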