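import Pool.Agent.Q15.PA.Stm

/-!
# Project PA, job PA-PW: powers
-/

set_option autoImplicit false

open MeasureTheory Set

namespace Pool.Agent.Q154.PA

open Pool.Agent.Q15.PA

lemma null_image {d : ℕ} (A : Matrix (Fin d) (Fin d) ℝ) (s : V d) (T : Set (V d))
    (hT : volume T = 0) : volume ((fun x => A.mulVec (x + s)) '' T) = 0 := by
  apply addHaar_image_eq_zero_of_differentiableOn_of_addHaar_eq_zero
  · have h : (fun x : V d => A.mulVec (x + s)) =
        fun x => (Matrix.toLin' A).toContinuousLinearMap (x + s) := by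
      funext x
      simp
    rw [h]
    apply Differentiable.differentiableOn
    exact ((Matrix.toLin' A).toContinuousLinearMap.differentiable).comp
      (differentiable_id.add_const s)
  · exact hT

lemma pw_step {d : ℕ} (G : Set (V d)) (M : Matrix (Fin d) (Fin d) ℝ) (S S' : Finset (V d)) (k : ℕ)
    (hM : IsUnit M.det) (hexp : Expanding (M ^ (k + 1)))
    (h1 : Attr G M S) (h2 : Attr G (M ^ k) S') : ∃ S'' : Finset (V d), Attr G (M ^ (k + 1)) S'' := by
  classical
  have hMu : IsUnit M := (Matrix.isUnit_iff_isUnit_det M).2 hM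
  have hMk : IsUnit (M ^ k).det := by
    rw [Matrix.det_pow]; exact hM.pow k
  have hcomp : ∀ (s t x : V d), M⁻¹.mulVec ((M ^ k)⁻¹.mulVec (x + t) + s) =
      (M ^ (k + 1))⁻¹.mulVec (x + (t + (M ^ k).mulVec s)) := by
    intro s t x
    have e1 : s = (M ^ k)⁻¹.mulVec ((M ^ k).mulVec s) := by
      rw [Matrix.mulVec_mulVec, Matrix.nonsing_inv_mul _ hMk, Matrix.one_mulVec]
    rw [pow_succ, Matrix.mul_inv_rev, ← Matrix.mulVec_mulVec]
    congr 1
    rw [← add_assoc, Matrix.mulVec_add _ (x + t), ← e1]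
  have hsub : ∀ t ∈ S', (fun x => (M ^ k)⁻¹.mulVec (x + t)) '' G ⊆ G := by
    intro t ht y hy
    rw [h2.eq]
    exact Set.mem_biUnion ht hy
  have himg : ∀ s t : V d, (fun x => (M ^ (k + 1))⁻¹.mulVec (x + (t + (M ^ k).mulVec s))) '' G =
      (fun x => M⁻¹.mulVec (x + s)) '' ((fun x => (M ^ k)⁻¹.mulVec (x + t)) '' G) := by
    intro s t
    rw [Set.image_image]
    apply Set.image_congr
    intro x _
    exact (hcomp s t x).symm
  have hinj : ∀ s : V d, Function.Injective (fun x : V d => M⁻¹.mulVec (x + s)) := by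
    intro s x y hxy
    have h3 : M⁻¹.mulVec (x + s) = M⁻¹.mulVec (y + s) := hxy
    have h4 : M.mulVec (M⁻¹.mulVec (x + s)) = M.mulVec (M⁻¹.mulVec (y + s)) := by rw [h3]
    rw [Matrix.mulVec_mulVec, Matrix.mulVec_mulVec, Matrix.mul_nonsing_inv _ hM,
      Matrix.one_mulVec, Matrix.one_mulVec] at h4
    exact add_right_cancel h4
  refine ⟨(S ×ˢ S').image (fun p => p.2 + (M ^ k).mulVec p.1), h1.nonempty, h1.compact, hexp,
    ?_, ?_⟩
  · apply Set.Subset.antisymm
    · intro x hx
      rw [h1.eq] at hx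
      obtain ⟨s, hs, y, hy, rfl⟩ := by simpa only [Set.mem_iUnion, exists_prop] using hx
      rw [h2.eq] at hy
      obtain ⟨t, ht, z, hz, rfl⟩ := by simpa only [Set.mem_iUnion, exists_prop] using hy
      have hmem : t + (M ^ k).mulVec s ∈ (S ×ˢ S').image (fun p => p.2 + (M ^ k).mulVec p.1) :=
        Finset.mem_image.2 ⟨(s, t), Finset.mem_product.2 ⟨hs, ht⟩, rfl⟩
      apply Set.mem_biUnion hmem
      exact ⟨z, hz, (hcomp s t z).symm⟩
    · intro x hx
      obtain ⟨w, hw, hxw⟩ := by simpa only [Set.mem_iUnion, exists_prop] using hx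
      obtain ⟨⟨s, t⟩, hst, rfl⟩ := Finset.mem_image.1 hw
      obtain ⟨hs, ht⟩ := Finset.mem_product.1 hst
      rw [himg s t] at hxw
      rw [h1.eq]
      apply Set.mem_biUnion hs
      exact Set.image_mono (hsub t ht) hxw
  · intro w hw w' hw' hne
    obtain ⟨⟨s, t⟩, hst, rfl⟩ := Finset.mem_image.1 hw
    obtain ⟨⟨s', t'⟩, hst', rfl⟩ := Finset.mem_image.1 hw'
    obtain ⟨hs, ht⟩ := Finset.mem_product.1 hst
    obtain ⟨hs', ht'⟩ := Finset.mem_product.1 hst'
    simp only at hs ht hs' ht' hne ⊢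
    rw [himg s t, himg s' t']
    by_cases hss : s = s'
    · subst hss
      have htt : t ≠ t' := fun h => hne (by rw [h])
      rw [← Set.image_inter (hinj s)]
      exact null_image _ _ _ (h2.null t ht t' ht' htt)
    · exact measure_mono_null (Set.inter_subset_inter (Set.image_mono (hsub t ht))
        (Set.image_mono (hsub t' ht'))) (h1.null s hs s' hs' hss)

theorem t_PW : S_PW := by
  intro hEX d G M S k hA hk
  obtain ⟨hdet, _, hpow⟩ := hEX d M hA.expanding
  induction k, hk using Nat.le_induction with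
  | base => exact ⟨S, by rw [pow_one]; exact hA⟩
  | succ k hk ih =>
    obtain ⟨S', hS'⟩ := ih
    exact pw_step G M S S' k hdet (hpow (k + 1) (by omega)) hA hS'

end Pool.Agent.Q154.PA
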