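import Pool.Agent.Q15.PA.Stm

/-!
# Project PA, job PA-SGN: the values at the extreme points
-/

set_option autoImplicit false

namespace Pool.Agent.Q154.PA

open Pool.Agent.Q15.PA

/-- a number below `t` and above all elements of a finite set which are less than `t` -/
lemma exists_below (F : Finset ℝ) (t : ℝ) : ∃ y, y < t ∧ ∀ z ∈ F, z < t → z ≤ y := by
  classical
  induction F using Finset.induction_on with
  | empty => exact ⟨t - 1, by linarith, by simp⟩
  | insert a s _ ih =>
    obtain ⟨y, hy, hys⟩ := ih
    by_cases ha : a < t
    · refine ⟨max y a, max_lt hy ha, ?_⟩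
      intro z hz hzt
      rcases Finset.mem_insert.1 hz with h | h
      · rw [h]; exact le_max_right _ _
      · exact (hys z h hzt).trans (le_max_left _ _)
    · refine ⟨y, hy, ?_⟩
      intro z hz hzt
      rcases Finset.mem_insert.1 hz with h | h
      · exact absurd (h ▸ hzt) ha
      · exact hys z h hzt

open Classical in
/-- the sum over the `v` with `v i ≤ x i` outside `σ` and `v i > x i` in `σ` -/
noncomputable def hs {d : ℕ} (N : V d →₀ ℝ) (σ : Finset (Fin d)) (x : V d) : ℝ :=
  N.sum fun v c => if (∀ i, i ∉ σ → v i ≤ x i) ∧ (∀ i ∈ σ, x i < v i) then c else 0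

lemma hs_empty {d : ℕ} (N : V d →₀ ℝ) (x : V d) : hs N ∅ x = cum N x := by
  classical
  unfold hs cum
  apply Finsupp.sum_congr
  intro v _
  have : ((∀ i, i ∉ (∅ : Finset (Fin d)) → v i ≤ x i) ∧ (∀ i ∈ (∅ : Finset (Fin d)), x i < v i)) ↔
      v ≤ x := by
    constructor
    · intro h i
      exact h.1 i (Finset.notMem_empty i)
    · intro h
      exact ⟨fun i _ => h i, fun i hi => absurd hi (Finset.notMem_empty i)⟩
  simp only [this]

lemma hs_eq {d : ℕ} (N : V d →₀ ℝ) (hG : Good N) (σ : Finset (Fin d)) :
    ∀ x : V d, hs N σ x = (-1) ^ σ.card * cum N x := by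
  classical
  induction σ using Finset.induction_on with
  | empty =>
    intro x
    rw [hs_empty]; simp
  | insert i σ hi ih =>
    intro x
    obtain ⟨-, -, R, hR⟩ := hG
    -- a bound for the coordinates
    obtain ⟨T, hT⟩ : ∃ T : ℝ, ∀ v ∈ N.support, v i ≤ T := by
      obtain ⟨T, hT⟩ := (N.support.image (fun v => v i)).bddAbove
      refine ⟨T, fun v hv => hT ?_⟩
      exact Finset.mem_coe.2 (Finset.mem_image_of_mem _ hv)
    set t : ℝ := max T (R + 1) with ht
    have hsum : hs N σ x + hs N (insert i σ) x = hs N σ (Function.update x i t) := by
      unfold hs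
      rw [← Finsupp.sum_add]
      apply Finsupp.sum_congr
      intro v hv
      have hvt : v i ≤ t := (hT v hv).trans (le_max_left _ _)
      set P : Prop := (∀ j, j ∉ insert i σ → v j ≤ x j) ∧ (∀ j ∈ σ, x j < v j) with hP
      have e1 : ((∀ j, j ∉ σ → v j ≤ x j) ∧ (∀ j ∈ σ, x j < v j)) ↔ P ∧ v i ≤ x i := by
        constructor
        · rintro ⟨h1, h2⟩
          exact ⟨⟨fun j hj => h1 j (fun h => hj (Finset.mem_insert_of_mem h)), h2⟩, h1 i hi⟩
        · rintro ⟨⟨h1, h2⟩, h3⟩
          refine ⟨fun j hj => ?_, h2⟩
          by_cases hji : j = i
          · rw [hji]; exact h3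
          · apply h1
            intro h
            rcases Finset.mem_insert.1 h with h | h
            · exact hji h
            · exact hj h
      have e2 : ((∀ j, j ∉ insert i σ → v j ≤ x j) ∧ (∀ j ∈ insert i σ, x j < v j)) ↔
          P ∧ ¬ v i ≤ x i := by
        constructor
        · rintro ⟨h1, h2⟩
          exact ⟨⟨h1, fun j hj => h2 j (Finset.mem_insert_of_mem hj)⟩,
            not_le.2 (h2 i (Finset.mem_insert_self i σ))⟩
        · rintro ⟨⟨h1, h2⟩, h3⟩
          refine ⟨h1, fun j hj => ?_⟩
          rcases Finset.mem_insert.1 hj with h | h
          · rw [h]; exact not_le.1 h3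
          · exact h2 j h
      have e3 : ((∀ j, j ∉ σ → v j ≤ Function.update x i t j) ∧
          (∀ j ∈ σ, Function.update x i t j < v j)) ↔ P := by
        constructor
        · rintro ⟨h1, h2⟩
          constructor
          · intro j hj
            have hji : j ≠ i := fun h => hj (h ▸ Finset.mem_insert_self i σ)
            have := h1 j (fun h => hj (Finset.mem_insert_of_mem h))
            rwa [Function.update_of_ne hji] at this
          · intro j hj
            have hji : j ≠ i := fun h => hi (h ▸ hj)
            have := h2 j hj
            rwa [Function.update_of_ne hji] at this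
        · rintro ⟨h1, h2⟩
          constructor
          · intro j hj
            by_cases hji : j = i
            · rw [hji, Function.update_self]; exact hvt
            · rw [Function.update_of_ne hji]
              apply h1
              intro h
              rcases Finset.mem_insert.1 h with h | h
              · exact hji h
              · exact hj h
          · intro j hj
            have hji : j ≠ i := fun h => hi (h ▸ hj)
            rw [Function.update_of_ne hji]
            exact h2 j hj
      simp only [e1, e2, e3]
      by_cases hp : P
      · by_cases hq : v i ≤ x i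
        · simp [hp, hq]
        · simp [hp, hq]
      · simp [hp]
    rw [ih, ih] at hsum
    have h0 : cum N (Function.update x i t) = 0 := by
      apply hR _ i
      rw [Function.update_self]
      exact lt_of_lt_of_le (by linarith) (le_max_right T (R + 1))
    rw [h0, mul_zero] at hsum
    rw [Finset.card_insert_of_notMem hi, pow_succ]
    linarith

theorem t_SGN : S_SGN := by
  classical
  intro d N hG l hl v hv hmax
  set σ : Finset (Fin d) := Finset.univ.filter (fun i => 0 < l i) with hσ
  have hy : ∀ i, ∃ y, y < v i ∧ ∀ z ∈ N.support.image (fun w => w i), z < v i → z ≤ y :=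
    fun i => exists_below _ _
  choose y hy1 hy2 using hy
  set x : V d := fun i => if i ∈ σ then y i else v i with hx
  have h1 := hs_eq N hG σ x
  have h2 : hs N σ x = N v := by
    unfold hs
    rw [Finsupp.sum, Finset.sum_eq_single v]
    · rw [if_pos]
      constructor
      · intro i hi
        simp only [hx]
        rw [if_neg hi]
      · intro i hi
        simp only [hx]
        rw [if_pos hi]
        exact hy1 i
    · intro w hw hwv
      apply if_neg
      rintro ⟨g1, g2⟩
      apply hwv
      have hterm : ∀ i ∈ (Finset.univ : Finset (Fin d)), l i * v i ≤ l i * w i := by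
        intro i _
        by_cases hi : i ∈ σ
        · have hli : 0 < l i := (Finset.mem_filter.1 hi).2
          have h3 := g2 i hi
          simp only [hx] at h3
          rw [if_pos hi] at h3
          have h4 : v i ≤ w i := by
            by_contra hcon
            have := hy2 i (w i) (Finset.mem_image_of_mem _ hw) (not_le.1 hcon)
            linarith
          exact mul_le_mul_of_nonneg_left h4 hli.le
        · have hli : l i ≤ 0 := by
            by_contra hcon
            exact hi (Finset.mem_filter.2 ⟨Finset.mem_univ i, not_le.1 hcon⟩)
          have h3 := g1 i hi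
          simp only [hx] at h3
          rw [if_neg hi] at h3
          exact mul_le_mul_of_nonpos_left h3 hli
      have hle := hmax w hw
      have heq : ∀ i ∈ (Finset.univ : Finset (Fin d)), l i * v i = l i * w i := by
        rw [← Finset.sum_eq_sum_iff_of_le hterm]
        apply le_antisymm (Finset.sum_le_sum hterm)
        exact hle
      funext i
      exact (mul_left_cancel₀ (hl i) (heq i (Finset.mem_univ i))).symm
    · intro hn
      exact absurd hv hn
  rw [h2] at h1
  rcases hG.2.1 x with h3 | h3
  · rw [h3, mul_zero] at h1
    exact absurd h1 (Finsupp.mem_support_iff.1 hv)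
  · rw [h3, mul_one] at h1
    rw [h1]

end Pool.Agent.Q154.PA
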