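import Pool.Agent.Q15.PA.Stm

/-!
# Project PA, job PA-Z1: pointwise form
-/

set_option autoImplicit false

open MeasureTheory

namespace Pool.Agent.Q154.PA

open Pool.Agent.Q15.PA

lemma cum_smul {d : ℕ} (N : V d →₀ ℝ) (c : ℝ) (x : V d) : cum (c • N) x = c * cum N x := by
  classical
  unfold cum
  rw [Finsupp.sum_smul_index' (by intro v; simp), Finsupp.mul_sum]
  apply Finsupp.sum_congr
  intro v _
  by_cases h : v ≤ x
  · simp [h]
  · simp [h]

lemma exists_above (F : Finset ℝ) (t : ℝ) : ∃ y, t < y ∧ ∀ z ∈ F, t < z → y ≤ z := by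
  classical
  induction F using Finset.induction_on with
  | empty => exact ⟨t + 1, by linarith, by simp⟩
  | insert a s _ ih =>
    obtain ⟨y, hy, hys⟩ := ih
    by_cases ha : t < a
    · refine ⟨min y a, lt_min hy ha, ?_⟩
      intro z hz hzt
      rcases Finset.mem_insert.1 hz with h | h
      · rw [h]; exact min_le_right _ _
      · exact (min_le_left _ _).trans (hys z h hzt)
    · refine ⟨y, hy, ?_⟩
      intro z hz hzt
      rcases Finset.mem_insert.1 hz with h | h
      · exact absurd (h ▸ hzt) ha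
      · exact hys z h hzt

lemma near_point {d : ℕ} (x : V d) (ε : ℝ) (hε : 0 < ε) (P : V d → Prop) (hP : ∀ᵐ y, P y) :
    ∃ y, (∀ i, x i < y i ∧ y i < x i + ε) ∧ P y := by
  by_contra hcon
  push Not at hcon
  set O : Set (V d) := Set.pi Set.univ (fun i => Set.Ioo (x i) (x i + ε)) with hO
  have hOo : IsOpen O := isOpen_set_pi Set.finite_univ (fun i _ => isOpen_Ioo)
  have hne : O.Nonempty := ⟨fun i => x i + ε / 2, fun i _ => ⟨by linarith, by linarith⟩⟩
  have hpos : 0 < volume O := hOo.measure_pos volume hne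
  have hzero : volume O = 0 := by
    refine measure_mono_null ?_ (ae_iff.1 hP)
    intro y hy
    exact hcon y (fun i => hy i (Set.mem_univ i))
  exact hpos.ne' hzero

lemma cum_local {d : ℕ} (N : V d →₀ ℝ) (x : V d) : ∃ ε : ℝ, 0 < ε ∧
    ∀ y : V d, (∀ i, x i < y i ∧ y i < x i + ε) → cum N y = cum N x := by
  classical
  obtain ⟨ε, hε, h⟩ := exists_above
    ((N.support ×ˢ (Finset.univ : Finset (Fin d))).image (fun p => p.1 p.2 - x p.2)) 0
  refine ⟨ε, hε, fun y hy => ?_⟩
  unfold cum
  apply Finsupp.sum_congr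
  intro v hv
  have hiff : v ≤ y ↔ v ≤ x := by
    constructor
    · intro hvy i
      by_contra hcon
      push Not at hcon
      have h1 := h (v i - x i) (Finset.mem_image.2 ⟨(v, i), Finset.mem_product.2
        ⟨hv, Finset.mem_univ i⟩, rfl⟩) (by linarith)
      have h2 := hvy i
      have h3 := (hy i).2
      linarith
    · intro hvx i
      exact (hvx i).trans (hy i).1.le
  simp only [hiff]

theorem t_Z1 : S_Z1 := by
  classical
  intro d G N hG hvol hae
  have hC : ∀ x, cum ((-1 : ℝ) ^ d • N) x = (-1) ^ d * cum N x := fun x => cum_smul N _ x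
  have hae' : ∀ᵐ x, G.indicator (fun _ => (1 : ℝ)) x = cum ((-1 : ℝ) ^ d • N) x := by
    filter_upwards [hae] with x hx
    rw [hC x, hx]
  set N₁ := (-1 : ℝ) ^ d • N with hN₁
  -- a good point near `x`
  have hnear : ∀ (x : V d) (δ : ℝ), 0 < δ → ∃ y, (∀ i, x i < y i ∧ y i < x i + δ) ∧
      G.indicator (fun _ => (1 : ℝ)) y = cum N₁ x := by
    intro x δ hδ
    obtain ⟨ε, hε, hloc⟩ := cum_local N₁ x
    obtain ⟨y, hy, hyP⟩ := near_point x (min ε δ) (lt_min hε hδ) _ hae'
    refine ⟨y, fun i => ⟨(hy i).1, lt_of_lt_of_le (hy i).2 (by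
      have := min_le_right ε δ; linarith)⟩, ?_⟩
    rw [hyP]
    exact hloc y (fun i => ⟨(hy i).1, lt_of_lt_of_le (hy i).2 (by
      have := min_le_left ε δ; linarith)⟩)
  refine ⟨⟨?_, ?_, ?_⟩, ?_, ?_⟩
  · intro h0
    apply hvol
    refine measure_mono_null ?_ (ae_iff.1 hae')
    intro x hx hcon
    rw [h0] at hcon
    rw [Set.indicator_of_mem hx] at hcon
    unfold cum at hcon
    simp at hcon
  · intro x
    obtain ⟨y, _, hy⟩ := hnear x 1 one_pos
    rw [← hy]
    by_cases h : y ∈ G
    · right; rw [Set.indicator_of_mem h]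
    · left; rw [Set.indicator_of_notMem h]
  · obtain ⟨R, hR⟩ := hG.isBounded.exists_norm_le
    refine ⟨R, fun x i hx => ?_⟩
    obtain ⟨y, hy1, hy⟩ := hnear x 1 one_pos
    rw [← hy, Set.indicator_of_notMem]
    intro hyG
    have h1 := hR y hyG
    have h2 : ‖y i‖ ≤ ‖y‖ := norm_le_pi_norm y i
    have h3 := le_abs_self (y i)
    rw [Real.norm_eq_abs] at h2
    linarith [(hy1 i).1]
  · intro x hx
    obtain ⟨δ, hδ, hball⟩ := Metric.isOpen_iff.1 isOpen_interior x hx
    obtain ⟨y, hy1, hy⟩ := hnear x δ hδ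
    rw [← hy, Set.indicator_of_mem]
    apply interior_subset
    apply hball
    rw [Metric.mem_ball, dist_pi_lt_iff hδ]
    intro i
    rw [Real.dist_eq, abs_lt]
    constructor <;> linarith [(hy1 i).1, (hy1 i).2]
  · filter_upwards [hae'] with x hx
    rw [← hx]
    by_cases h : x ∈ G
    · rw [Set.indicator_of_mem h]; simp [h]
    · rw [Set.indicator_of_notMem h]; simp [h]

end Pool.Agent.Q154.PA
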